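import Mathlib

/-!
Elementary calculus lemmas used in the maximum-principle arguments.
-/

open Set Filter Topology

namespace Pool.Agent.H16

/-- Second-order necessary condition at a local maximum, in terms of `HasDerivAt`. -/
lemma second_order_max {F F' : ℝ → ℝ} {c : ℝ}
    (h1 : ∀ᶠ s in 𝓝 (0:ℝ), HasDerivAt F (F' s) s) (h2 : HasDerivAt F' c 0)
    (hm : IsLocalMax F 0) : F' 0 = 0 ∧ c ≤ 0 := by
  have h0 : HasDerivAt F (F' 0) 0 := h1.self_of_nhds
  have hz : F' 0 = 0 := hm.hasDerivAt_eq_zero h0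
  refine ⟨hz, ?_⟩
  by_contra hc
  push Not at hc
  have hd : deriv F =ᶠ[𝓝 0] F' := h1.mono fun s hs => hs.deriv
  have hdd : deriv (deriv F) 0 = c := by
    rw [hd.deriv_eq]; exact h2.deriv
  have hmin : IsLocalMin F 0 := by
    apply isLocalMin_of_deriv_deriv_pos
    · rw [hdd]; exact hc
    · rw [h0.deriv]; exact hz
    · exact h0.continuousAt
  -- then `F` is locally constant
  have hconst : ∀ᶠ s in 𝓝 (0:ℝ), F s = F 0 := by
    filter_upwards [hm, hmin] with s a b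
    exact le_antisymm a b
  have hconst' : F =ᶠ[𝓝 0] fun _ => F 0 := hconst
  have : deriv (deriv F) 0 = 0 := by
    have h3 : deriv F =ᶠ[𝓝 0] deriv (fun _ => F 0) := hconst'.deriv
    rw [h3.deriv_eq]
    simp
  linarith

/-- First touching time: compactness argument. -/
lemma first_touch {E : Type*} [TopologicalSpace E] {C : Set E} {T' : ℝ}
    (hC : IsCompact C) {W : ℝ → E → ℝ}
    (hW : ContinuousOn (fun q : ℝ × E => W q.1 q.2) (Icc 0 T' ×ˢ C))
    (h0 : ∀ x ∈ C, W 0 x < 0)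
    (hb : ∀ t ∈ Icc 0 T', ∀ x ∈ C, x ∉ interior C → W t x < 0)
    (hn : ∀ t ∈ Ioc 0 T', ∀ x ∈ interior C, W t x = 0 → (∀ s ∈ Ico 0 t, W s x < 0) →
      (∀ y ∈ interior C, W t y ≤ 0) → False) :
    ∀ t ∈ Icc 0 T', ∀ x ∈ C, W t x < 0 := by
  by_contra hcon
  push Not at hcon
  obtain ⟨t₀, ht₀, x₀, hx₀, hW₀⟩ := hcon
  set S : Set (ℝ × E) := (Icc 0 T' ×ˢ C) ∩ {q | 0 ≤ W q.1 q.2} with hS
  have hcomp : IsCompact (Icc 0 T' ×ˢ C) := isCompact_Icc.prod hC
  -- the set of bad times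
  have hScomp : IsCompact S := by
    have : IsCompact (Icc 0 T' ×ˢ C) := hcomp
    -- closed in the compact
    have hpre : S = (Icc 0 T' ×ˢ C) ∩ (fun q : ℝ × E => W q.1 q.2) ⁻¹' (Ici 0) := by
      ext q; simp [hS]
    rw [hpre]
    obtain ⟨u, hu, hu2⟩ := (continuousOn_iff_isClosed.1 hW) (Ici 0) isClosed_Ici
    rw [inter_comm, hu2, inter_comm]
    exact this.inter_right hu
  have hne : S.Nonempty := ⟨(t₀, x₀), ⟨ht₀, hx₀⟩, hW₀⟩
  obtain ⟨⟨t₁, x₁⟩, hq, hmin⟩ := hScomp.exists_isMinOn hne (continuous_fst.continuousOn)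
  obtain ⟨⟨ht₁, hx₁⟩, hW₁⟩ := hq
  simp only [Set.mem_ofPred_eq] at hW₁
  simp only at ht₁ hx₁
  have hbefore : ∀ s ∈ Icc 0 T', s < t₁ → ∀ y ∈ C, W s y < 0 := by
    intro s hs hst y hy
    by_contra hneg
    push Not at hneg
    have : (t₁, x₁).1 ≤ (s, y).1 := hmin (show (s, y) ∈ S from ⟨⟨hs, hy⟩, hneg⟩)
    simp only at this
    linarith
  have ht1pos : 0 < t₁ := by
    rcases eq_or_lt_of_le ht₁.1 with h | h
    · exfalso
      have := h0 x₁ hx₁
      rw [← h] at hW₁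
      linarith
    · exact h
  have hint : x₁ ∈ interior C := by
    by_contra hni
    have := hb t₁ ht₁ x₁ hx₁ hni
    linarith
  -- limits in time
  have hlim : ∀ y ∈ C, W t₁ y ≤ 0 := by
    intro y hy
    have hcont : ContinuousWithinAt (fun s => W s y) (Icc 0 T') t₁ := by
      have h1 : ContinuousOn (fun s : ℝ => W s y) (Icc 0 T') := by
        have := hW.comp (f := fun s : ℝ => (s, y)) (s := Icc 0 T')
          (by fun_prop) (fun s hs => ⟨hs, hy⟩)
        exact this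
      exact h1 t₁ ht₁
    have hsub : Ico 0 t₁ ⊆ Icc 0 T' := fun s hs => ⟨hs.1, hs.2.le.trans ht₁.2⟩
    have hcont' : Tendsto (fun s => W s y) (𝓝[Ico 0 t₁] t₁) (𝓝 (W t₁ y)) :=
      hcont.mono_left (nhdsWithin_mono _ hsub)
    have : (𝓝[Ico 0 t₁] t₁).NeBot := by
      rw [← mem_closure_iff_nhdsWithin_neBot, closure_Ico ht1pos.ne]
      exact ⟨ht1pos.le, le_rfl⟩
    apply le_of_tendsto hcont'
    filter_upwards [self_mem_nhdsWithin] with s hs
    exact (hbefore s (hsub hs) hs.2 y hy).le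
  have hzero : W t₁ x₁ = 0 := le_antisymm (hlim x₁ hx₁) hW₁
  refine hn t₁ ⟨ht1pos, ht₁.2⟩ x₁ hint hzero ?_ ?_
  · intro s hs
    exact hbefore s ⟨hs.1, hs.2.le.trans ht₁.2⟩ hs.2 x₁ hx₁
  · intro y hy
    exact hlim y (interior_subset hy)

/-- If `f s < 0` for `s < t` near `t`, `f t = 0` and `f` has derivative `a` at `t`, then `0 ≤ a`. -/
lemma deriv_nonneg_of_left {f : ℝ → ℝ} {a t : ℝ} (ht : 0 < t) (hf : HasDerivAt f a t)
    (h0 : f t = 0) (hneg : ∀ s ∈ Ico 0 t, f s < 0) : 0 ≤ a := by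
  by_contra ha
  push Not at ha
  -- slope is eventually negative, so `f s > 0` for `s < t` close to `t`
  have h1 : Tendsto (slope f t) (𝓝[≠] t) (𝓝 a) := hasDerivAt_iff_tendsto_slope.1 hf
  have h2 : ∀ᶠ s in 𝓝[≠] t, slope f t s < 0 := h1.eventually (gt_mem_nhds ha)
  have h3 : ∀ᶠ s in 𝓝[<] t, slope f t s < 0 :=
    h2.filter_mono (nhdsWithin_mono _ (fun s hs => ne_of_lt hs))
  have h4 : ∀ᶠ s in 𝓝[<] t, s ∈ Ioo 0 t := Ioo_mem_nhdsLT ht
  obtain ⟨s, hs1, hs2⟩ := (h3.and h4).exists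
  have hs3 := hneg s ⟨hs2.1.le, hs2.2⟩
  rw [slope_def_field, h0] at hs1
  have : (f s - 0) / (s - t) > 0 := div_pos_of_neg_of_neg (by linarith) (by linarith [hs2.2])
  linarith

end Pool.Agent.H16
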