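import Mathlib
import Pool.Agent.H16.Calc

/-!
Axisymmetric solutions of the incompressible Navier-Stokes equations on `ℝ³`.
-/

open Set Filter Topology
open scoped Laplacian Gradient ContDiff RealInnerProductSpace

namespace Pool.Agent.H16

/-- Euclidean three-space. -/
abbrev E3 := EuclideanSpace ℝ (Fin 3)

/-- Rotation by the angle `θ` about the `x₃`-axis (coordinates are numbered `0, 1, 2`). -/
noncomputable def rot (θ : ℝ) (x : E3) : E3 :=
  !₂[Real.cos θ * x 0 - Real.sin θ * x 1, Real.sin θ * x 0 + Real.cos θ * x 1, x 2]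

/-- Distance to the axis of symmetry, `r = √(x₁² + x₂²)`. -/
noncomputable def rad (x : E3) : ℝ := √(x 0 ^ 2 + x 1 ^ 2)

/-- The circulation `Γ = r u_θ = x₁ u₂ - x₂ u₁` of a vector field. -/
noncomputable def circ (v : E3 → E3) (x : E3) : ℝ := x 0 * v x 1 - x 1 * v x 0

/-- The radial quantity `r u_r = x₁ u₁ + x₂ u₂` of a vector field. -/
noncomputable def radFlux (v : E3 → E3) (x : E3) : ℝ := x 0 * v x 0 + x 1 * v x 1

/-- `(u, p)` is a smooth axisymmetric solution of the three-dimensional incompressible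
Navier-Stokes equations with unit viscosity on `[0, T) × ℝ³`, with `u` bounded on
`[0, T'] × ℝ³` for every `T' < T`. -/
structure IsAxisymNS (T : ℝ) (u : ℝ → E3 → E3) (p : ℝ → E3 → ℝ) : Prop where
  smooth_u : ContDiffOn ℝ ∞ (fun q : ℝ × E3 => u q.1 q.2) (Ico 0 T ×ˢ univ)
  smooth_p : ContDiffOn ℝ ∞ (fun q : ℝ × E3 => p q.1 q.2) (Ico 0 T ×ˢ univ)
  bounded : ∀ T' < T, ∃ K, ∀ t ∈ Icc 0 T', ∀ x, ‖u t x‖ ≤ K
  axisymmetric : ∀ t ∈ Ico 0 T, ∀ θ x, u t (rot θ x) = rot θ (u t x)
  divergence_free : ∀ t ∈ Ico 0 T, ∀ x,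
    ∑ i : Fin 3, fderiv ℝ (u t) x (EuclideanSpace.single i 1) i = 0
  navier_stokes : ∀ t ∈ Ioo 0 T, ∀ x,
    deriv (fun s => u s x) t + fderiv ℝ (u t) x (u t x) - Δ (u t) x + ∇ (p t) x = 0

/-- the infinitesimal rotation -/
noncomputable def rotGen (x : E3) : E3 := !₂[- x 1, x 0, 0]

/-- horizontal projection -/
noncomputable def hor (x : E3) : E3 := !₂[x 0, x 1, 0]

/-- standard basis vector -/
noncomputable def e (i : Fin 3) : E3 := EuclideanSpace.single i 1

@[simp] lemma rot_zero' (θ : ℝ) (x : E3) : rot θ x 0 = Real.cos θ * x 0 - Real.sin θ * x 1 := rfl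
@[simp] lemma rot_one' (θ : ℝ) (x : E3) : rot θ x 1 = Real.sin θ * x 0 + Real.cos θ * x 1 := rfl
@[simp] lemma rot_two' (θ : ℝ) (x : E3) : rot θ x 2 = x 2 := rfl
@[simp] lemma rotGen_zero' (x : E3) : rotGen x 0 = - x 1 := rfl
@[simp] lemma rotGen_one' (x : E3) : rotGen x 1 = x 0 := rfl
@[simp] lemma rotGen_two' (x : E3) : rotGen x 2 = 0 := rfl
@[simp] lemma hor_zero' (x : E3) : hor x 0 = x 0 := rfl
@[simp] lemma hor_one' (x : E3) : hor x 1 = x 1 := rfl
@[simp] lemma hor_two' (x : E3) : hor x 2 = 0 := rfl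

lemma ext3 {x y : E3} (h0 : x 0 = y 0) (h1 : x 1 = y 1) (h2 : x 2 = y 2) : x = y := by
  ext i; fin_cases i <;> assumption

@[simp] lemma rot_zero_angle (x : E3) : rot 0 x = x := by
  apply ext3 <;> simp

@[simp] lemma rot_two_pi (x : E3) : rot (2 * Real.pi) x = x := by
  apply ext3 <;> simp

lemma inner_eq (x y : E3) : ⟪x, y⟫ = x 0 * y 0 + x 1 * y 1 + x 2 * y 2 := by
  simp [PiLp.inner_apply, Fin.sum_univ_three, mul_comm]

lemma norm_sq_eq (x : E3) : ‖x‖ ^ 2 = x 0 ^ 2 + x 1 ^ 2 + x 2 ^ 2 := by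
  rw [EuclideanSpace.norm_sq_eq]
  simp [Fin.sum_univ_three]

/-- The rotation as a linear isometry equivalence. -/
noncomputable def rotL (θ : ℝ) : E3 ≃ₗᵢ[ℝ] E3 where
  toFun := rot θ
  invFun := rot (-θ)
  map_add' x y := by apply ext3 <;> simp <;> ring
  map_smul' c x := by apply ext3 <;> simp <;> ring
  left_inv x := by
    have h := Real.sin_sq_add_cos_sq θ
    apply ext3
    · simp only [rot_zero', rot_one', Real.cos_neg, Real.sin_neg]; linear_combination x 0 * h
    · simp only [rot_zero', rot_one', Real.cos_neg, Real.sin_neg]; linear_combination x 1 * h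
    · simp
  right_inv x := by
    have h := Real.sin_sq_add_cos_sq θ
    apply ext3
    · simp only [rot_zero', rot_one', Real.cos_neg, Real.sin_neg]; linear_combination x 0 * h
    · simp only [rot_zero', rot_one', Real.cos_neg, Real.sin_neg]; linear_combination x 1 * h
    · simp
  norm_map' x := by
    have h := Real.sin_sq_add_cos_sq θ
    have : ‖rot θ x‖ ^ 2 = ‖x‖ ^ 2 := by
      rw [norm_sq_eq, norm_sq_eq]
      simp only [rot_zero', rot_one', rot_two']
      linear_combination (x 0 ^ 2 + x 1 ^ 2) * h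
    exact (sq_eq_sq₀ (norm_nonneg _) (norm_nonneg _)).1 this

@[simp] lemma rotL_apply (θ : ℝ) (x : E3) : rotL θ x = rot θ x := rfl

lemma hasDerivAt_e3 {f : ℝ → E3} {f' : E3} {s : ℝ}
    (h : ∀ i, HasDerivAt (fun t => f t i) (f' i) s) : HasDerivAt f f' s := by
  have h' : HasDerivAt (fun t => (fun i => f t i)) (fun i => f' i) s := hasDerivAt_pi.2 h
  have := ((EuclideanSpace.equiv (Fin 3) ℝ).symm.toContinuousLinearMap.hasFDerivAt.comp_hasDerivAt
    s h')
  exact this

lemma hasDerivAt_rot (θ : ℝ) (x : E3) :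
    HasDerivAt (fun s => rot s x) (rotGen (rot θ x)) θ := by
  apply hasDerivAt_e3
  intro i
  fin_cases i
  · have := ((Real.hasDerivAt_cos θ).mul_const (x 0)).sub ((Real.hasDerivAt_sin θ).mul_const (x 1))
    refine this.congr_deriv ?_
    change _ = -(Real.sin θ * x 0 + Real.cos θ * x 1)
    ring
  · have := ((Real.hasDerivAt_sin θ).mul_const (x 0)).add ((Real.hasDerivAt_cos θ).mul_const (x 1))
    refine this.congr_deriv ?_
    change _ = (Real.cos θ * x 0 - Real.sin θ * x 1)
    ring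
  · simpa using hasDerivAt_const θ (x 2)

/-! ### consequences of axial symmetry of a vector field -/

section field

variable {v : E3 → E3}

lemma fderiv_rotGen (hv : Differentiable ℝ v) (hax : ∀ θ x, v (rot θ x) = rot θ (v x)) (x : E3) :
    fderiv ℝ v x (rotGen x) = rotGen (v x) := by
  have h1 : HasDerivAt (fun s => v (rot s x)) (fderiv ℝ v x (rotGen x)) 0 := by
    have := (hv (rot 0 x)).hasFDerivAt.comp_hasDerivAt (0:ℝ) (hasDerivAt_rot 0 x)
    simp only [rot_zero_angle] at this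
    exact this
  have h2 : HasDerivAt (fun s => v (rot s x)) (rotGen (v x)) 0 := by
    have := hasDerivAt_rot 0 (v x)
    simp only [rot_zero_angle] at this
    simpa [hax] using this
  exact h1.unique h2

lemma fderiv_rot (hv : Differentiable ℝ v) (hax : ∀ θ x, v (rot θ x) = rot θ (v x))
    (θ : ℝ) (x w : E3) :
    fderiv ℝ v (rot θ x) (rot θ w) = rot θ (fderiv ℝ v x w) := by
  have h1 : HasFDerivAt (fun y => v (rotL θ y))
      ((fderiv ℝ v (rot θ x)).comp (rotL θ).toContinuousLinearEquiv.toContinuousLinearMap) x := by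
    exact (hv (rot θ x)).hasFDerivAt.comp x
      (rotL θ).toContinuousLinearEquiv.toContinuousLinearMap.hasFDerivAt
  have h2 : HasFDerivAt (fun y => rotL θ (v y))
      ((rotL θ).toContinuousLinearEquiv.toContinuousLinearMap.comp (fderiv ℝ v x)) x :=
    (rotL θ).toContinuousLinearEquiv.toContinuousLinearMap.hasFDerivAt.comp x (hv x).hasFDerivAt
  have h3 : (fun y => v (rotL θ y)) = fun y => rotL θ (v y) := by
    ext1 y; exact hax θ y
  rw [h3] at h1
  have := h1.unique h2
  have h4 := congrArg (fun L => L w) this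
  simpa using h4

lemma laplacian_rot (hv : ContDiff ℝ ∞ v) (hax : ∀ θ x, v (rot θ x) = rot θ (v x))
    (θ : ℝ) (x : E3) : Δ v (rot θ x) = rot θ (Δ v x) := by
  have hc : ContDiffAt ℝ 2 v x := (hv.of_le (by norm_cast)).contDiffAt
  set R := rotL θ with hR
  have h1 : Δ ((R.toContinuousLinearEquiv.toContinuousLinearMap : E3 →L[ℝ] E3) ∘ v) x
      = R (Δ v x) := hc.laplacian_CLM_comp_left
  have h2 : ((R.toContinuousLinearEquiv.toContinuousLinearMap : E3 →L[ℝ] E3) ∘ v)
      = v ∘ (R.toContinuousLinearEquiv.toContinuousLinearMap : E3 →L[ℝ] E3) := by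
    ext1 y; exact (hax θ y).symm
  rw [h2] at h1
  set b := stdOrthonormalBasis ℝ E3 with hb
  have h3 : Δ (v ∘ (R.toContinuousLinearEquiv.toContinuousLinearMap : E3 →L[ℝ] E3)) x
      = Δ v (R x) := by
    rw [InnerProductSpace.laplacian_eq_iteratedFDeriv_orthonormalBasis _ b,
      InnerProductSpace.laplacian_eq_iteratedFDeriv_orthonormalBasis v (b.map R)]
    apply Finset.sum_congr rfl
    intro i _
    rw [ContinuousLinearMap.iteratedFDeriv_comp_right _ hv x (by norm_cast)]
    simp only [ContinuousMultilinearMap.compContinuousLinearMap_apply, OrthonormalBasis.map_apply]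
    congr 1
    ext1 j
    fin_cases j <;> rfl
  rw [h3] at h1
  exact h1

end field

end Pool.Agent.H16
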