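import Mathlib
import Pool.Agent.H16.AxiNS

/-!
One-dimensional (line) jets of scalar functions, and the equations satisfied by the circulation
and by the radial quantity `r u_r`.
-/

open Set Filter Topology
open scoped Laplacian Gradient ContDiff RealInnerProductSpace

namespace Pool.Agent.H16

lemma e_apply (i j : Fin 3) : e i j = if j = i then 1 else 0 := by
  simp [e]

/-- `f` has, at the point `(t, x)`, time derivative `a`, line derivatives `D i s` at
`x + s e_i` (for `s` near zero) and second line derivatives `H i`. -/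
structure LineJet (f : ℝ → E3 → ℝ) (t : ℝ) (x : E3) (a : ℝ) (D : Fin 3 → ℝ → ℝ)
    (H : Fin 3 → ℝ) : Prop where
  time : HasDerivAt (fun s => f s x) a t
  line : ∀ i, ∀ᶠ s in 𝓝 (0:ℝ), HasDerivAt (fun s => f t (x + s • e i)) (D i s) s
  line2 : ∀ i, HasDerivAt (D i) (H i) 0

lemma LineJet.neg {f : ℝ → E3 → ℝ} {t : ℝ} {x : E3} {a : ℝ} {D : Fin 3 → ℝ → ℝ}
    {H : Fin 3 → ℝ} (h : LineJet f t x a D H) :
    LineJet (fun t x => - f t x) t x (-a) (fun i s => - D i s) (fun i => - H i) where
  time := h.time.neg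
  line := fun i => (h.line i).mono fun _ hs => hs.neg
  line2 := fun i => (h.line2 i).neg

lemma LineJet.add {f g : ℝ → E3 → ℝ} {t : ℝ} {x : E3} {a b : ℝ} {D D' : Fin 3 → ℝ → ℝ}
    {H H' : Fin 3 → ℝ} (h : LineJet f t x a D H) (h' : LineJet g t x b D' H') :
    LineJet (fun t x => f t x + g t x) t x (a + b) (fun i s => D i s + D' i s)
      (fun i => H i + H' i) where
  time := h.time.add h'.time
  line := fun i => ((h.line i).and (h'.line i)).mono fun _ hs => hs.1.add hs.2
  line2 := fun i => (h.line2 i).add (h'.line2 i)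

/-! ### line derivatives of a smooth field -/

section field

variable {v : E3 → E3}

lemma hasDerivAt_line (x : E3) (i : Fin 3) (s : ℝ) :
    HasDerivAt (fun s : ℝ => x + s • e i) (e i) s := by
  simpa using ((hasDerivAt_id s).smul_const (e i)).const_add x

lemma hasDerivAt_field_line (hv : ContDiff ℝ ∞ v) (x : E3) (i : Fin 3) (s : ℝ) :
    HasDerivAt (fun s : ℝ => v (x + s • e i)) (fderiv ℝ v (x + s • e i) (e i)) s := by
  have hd : Differentiable ℝ v := hv.differentiable (by simp)
  exact (hd _).hasFDerivAt.comp_hasDerivAt s (hasDerivAt_line x i s)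

lemma hasDerivAt_field_line2 (hv : ContDiff ℝ ∞ v) (x : E3) (i : Fin 3) (s : ℝ) :
    HasDerivAt (fun s : ℝ => fderiv ℝ v (x + s • e i) (e i))
      (fderiv ℝ (fderiv ℝ v) (x + s • e i) (e i) (e i)) s := by
  have hd : Differentiable ℝ (fderiv ℝ v) :=
    (hv.fderiv_right (m := ∞) (by norm_cast)).differentiable (by simp)
  have := (hd _).hasFDerivAt.comp_hasDerivAt s (hasDerivAt_line x i s)
  exact ((ContinuousLinearMap.apply ℝ E3 (e i)).hasFDerivAt.comp_hasDerivAt s this)

lemma hasDerivAt_coord {f : ℝ → E3} {f' : E3} {s : ℝ} (h : HasDerivAt f f' s) (j : Fin 3) :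
    HasDerivAt (fun t => f t j) (f' j) s := by
  exact ((EuclideanSpace.proj j : E3 →L[ℝ] ℝ).hasFDerivAt.comp_hasDerivAt s h)

lemma laplacian_eq_sum (v : E3 → E3) (x : E3) :
    Δ v x = ∑ i, fderiv ℝ (fderiv ℝ v) x (e i) (e i) := by
  rw [InnerProductSpace.laplacian_eq_iteratedFDeriv_orthonormalBasis v
    (EuclideanSpace.basisFun (Fin 3) ℝ)]
  apply Finset.sum_congr rfl
  intro i _
  rw [iteratedFDeriv_two_apply]
  simp [e]

lemma e3_sum (w : E3) : w = ∑ i, w i • e i := by
  apply ext3 <;> simp [Fin.sum_univ_three, e_apply]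

lemma fderiv_expand (v : E3 → E3) (x w : E3) :
    fderiv ℝ v x w = ∑ i, w i • fderiv ℝ v x (e i) := by
  conv_lhs => rw [e3_sum w]
  simp

end field

section sol

variable {T : ℝ} {u : ℝ → E3 → E3} {p : ℝ → E3 → ℝ}

lemma IsAxisymNS.slice (h : IsAxisymNS T u p) {t : ℝ} (ht : t ∈ Ico 0 T) :
    ContDiff ℝ ∞ (u t) := by
  rw [← contDiffOn_univ]
  exact h.smooth_u.comp (f := fun x : E3 => (t, x)) (by fun_prop) (fun x _ => ⟨ht, mem_univ _⟩)

lemma IsAxisymNS.slice_p (h : IsAxisymNS T u p) {t : ℝ} (ht : t ∈ Ico 0 T) :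
    ContDiff ℝ ∞ (p t) := by
  rw [← contDiffOn_univ]
  exact h.smooth_p.comp (f := fun x : E3 => (t, x)) (by fun_prop) (fun x _ => ⟨ht, mem_univ _⟩)

lemma IsAxisymNS.hasDerivAt_time (h : IsAxisymNS T u p) {t : ℝ} (ht : t ∈ Ioo 0 T) (x : E3) :
    HasDerivAt (fun s => u s x) (deriv (fun s => u s x) t) t := by
  have h1 : ContDiffAt ℝ ∞ (fun q : ℝ × E3 => u q.1 q.2) (t, x) :=
    h.smooth_u.contDiffAt (prod_mem_nhds (Ico_mem_nhds ht.1 ht.2) univ_mem)
  have h2 : DifferentiableAt ℝ (fun q : ℝ × E3 => u q.1 q.2) (t, x) :=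
    h1.differentiableAt (by simp)
  have h3 : DifferentiableAt ℝ (fun s : ℝ => (s, x)) t := by fun_prop
  have h4 : DifferentiableAt ℝ (fun s => u s x) t :=
    DifferentiableAt.comp (f := fun s : ℝ => (s, x)) t h2 h3
  exact h4.hasDerivAt

/-- the pressure has no angular derivative -/
lemma IsAxisymNS.pressure_rotGen (h : IsAxisymNS T u p) {t : ℝ} (ht : t ∈ Ioo 0 T) (x : E3) :
    x 0 * (∇ (p t) x) 1 - x 1 * (∇ (p t) x) 0 = 0 := by
  have ht' : t ∈ Ico 0 T := ⟨ht.1.le, ht.2⟩
  have hv := h.slice ht'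
  have hvd : Differentiable ℝ (u t) := hv.differentiable (by simp)
  have hax : ∀ θ x, u t (rot θ x) = rot θ (u t x) := h.axisymmetric t ht'
  have hpd : Differentiable ℝ (p t) := (h.slice_p ht').differentiable (by simp)
  -- equivariance of the gradient
  have hgrad : ∀ y, ∇ (p t) y = - (deriv (fun s => u s y) t + fderiv ℝ (u t) y (u t y)
      - Δ (u t) y) := by
    intro y
    have := h.navier_stokes t ht y
    exact (neg_eq_of_add_eq_zero_right this).symm
  have htime : ∀ θ, deriv (fun s => u s (rot θ x)) t = rot θ (deriv (fun s => u s x) t) := by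
    intro θ
    have h1 : HasDerivAt (fun s => rotL θ (u s x)) (rotL θ (deriv (fun s => u s x) t)) t :=
      (rotL θ).toContinuousLinearEquiv.toContinuousLinearMap.hasFDerivAt.comp_hasDerivAt t
        (h.hasDerivAt_time ht x)
    have h2 : (fun s => u s (rot θ x)) =ᶠ[𝓝 t] fun s => rotL θ (u s x) := by
      filter_upwards [Ico_mem_nhds ht.1 ht.2] with s hs
      exact h.axisymmetric s hs θ x
    exact (h1.congr_of_eventuallyEq h2).deriv
  have heq : ∀ θ, ∇ (p t) (rot θ x) = rotL θ (∇ (p t) x) := by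
    intro θ
    rw [hgrad, hgrad x, map_neg, map_sub, map_add, htime, hax, fderiv_rot hvd hax,
      laplacian_rot hv hax]
    rfl
  -- the function `θ ↦ p (rot θ x)` has constant derivative
  set c : ℝ := ⟪∇ (p t) x, rotGen x⟫ with hc
  have hder : ∀ θ, HasDerivAt (fun s => p t (rot s x)) c θ := by
    intro θ
    have h1 := (hpd (rot θ x)).hasFDerivAt.comp_hasDerivAt θ (hasDerivAt_rot θ x)
    refine h1.congr_deriv ?_
    have h2 : fderiv ℝ (p t) (rot θ x) (rotGen (rot θ x))
        = ⟪∇ (p t) (rot θ x), rotGen (rot θ x)⟫ := by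
      rw [gradient, InnerProductSpace.toDual_symm_apply]
    have h3 : rotGen (rot θ x) = rotL θ (rotGen x) := by
      apply ext3
      · simp only [rotL_apply, rotGen_zero', rot_one', rot_zero', rotGen_one']; ring
      · simp only [rotL_apply, rotGen_zero', rot_one', rot_zero', rotGen_one']; ring
      · simp
    rw [h2, heq, h3, LinearIsometryEquiv.inner_map_map]
  have hlin : ∀ θ, p t (rot θ x) = p t (rot 0 x) + c * θ := by
    intro θ
    have h1 : ∀ s, HasDerivAt (fun s => p t (rot s x) - c * s) 0 s := by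
      intro s
      have := (hder s).sub ((hasDerivAt_id s).const_mul c)
      exact this.congr_deriv (by ring)
    have h2 := is_const_of_deriv_eq_zero (f := fun s => p t (rot s x) - c * s)
      (fun s => (h1 s).differentiableAt) (fun s => (h1 s).deriv) θ 0
    simp only [mul_zero, sub_zero] at h2
    linarith
  have h2pi := hlin (2 * Real.pi)
  rw [rot_two_pi, rot_zero_angle] at h2pi
  have hc0 : c = 0 := by
    have : c * (2 * Real.pi) = 0 := by linarith
    rcases mul_eq_zero.1 this with h | h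
    · exact h
    · exact absurd h (by positivity)
  rw [hc, inner_eq] at hc0
  simp only [rotGen_zero', rotGen_one', rotGen_two'] at hc0
  linarith

lemma IsAxisymNS.axis_identities (h : IsAxisymNS T u p) {t : ℝ} (ht : t ∈ Ico 0 T) (x : E3) :
    (- x 1 * fderiv ℝ (u t) x (e 0) 0 + x 0 * fderiv ℝ (u t) x (e 1) 0 = - u t x 1) ∧
    (- x 1 * fderiv ℝ (u t) x (e 0) 1 + x 0 * fderiv ℝ (u t) x (e 1) 1 = u t x 0) := by
  have h1 := fderiv_rotGen ((h.slice ht).differentiable (by simp)) (h.axisymmetric t ht) x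
  rw [fderiv_expand] at h1
  simp only [Fin.sum_univ_three, rotGen_zero', rotGen_one', rotGen_two', zero_smul, add_zero] at h1
  constructor
  · have := congrArg (fun w : E3 => w 0) h1
    simpa using this
  · have := congrArg (fun w : E3 => w 1) h1
    simpa using this

/-- line derivatives of the circulation -/
noncomputable def circD (v : E3 → E3) (x : E3) (i : Fin 3) (s : ℝ) : ℝ :=
  (e i 0 * v (x + s • e i) 1 + (x + s • e i) 0 * fderiv ℝ v (x + s • e i) (e i) 1) -
  (e i 1 * v (x + s • e i) 0 + (x + s • e i) 1 * fderiv ℝ v (x + s • e i) (e i) 0)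

noncomputable def circH (v : E3 → E3) (x : E3) (i : Fin 3) : ℝ :=
  (2 * e i 0 * fderiv ℝ v x (e i) 1 + x 0 * fderiv ℝ (fderiv ℝ v) x (e i) (e i) 1) -
  (2 * e i 1 * fderiv ℝ v x (e i) 0 + x 1 * fderiv ℝ (fderiv ℝ v) x (e i) (e i) 0)

lemma IsAxisymNS.circ_jet (h : IsAxisymNS T u p) {t : ℝ} (ht : t ∈ Ioo 0 T) (x : E3) :
    LineJet (fun t x => circ (u t) x) t x
      (x 0 * deriv (fun s => u s x) t 1 - x 1 * deriv (fun s => u s x) t 0)
      (circD (u t) x) (circH (u t) x) where
  time := by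
    have h1 := h.hasDerivAt_time ht x
    exact ((hasDerivAt_coord h1 1).const_mul (x 0)).sub ((hasDerivAt_coord h1 0).const_mul (x 1))
  line := by
    intro i
    refine Eventually.of_forall fun s => ?_
    have hv := h.slice (⟨ht.1.le, ht.2⟩ : t ∈ Ico 0 T)
    have h1 := hasDerivAt_field_line hv x i s
    have h2 := hasDerivAt_line x i s
    exact ((hasDerivAt_coord h2 0).mul (hasDerivAt_coord h1 1)).sub
      ((hasDerivAt_coord h2 1).mul (hasDerivAt_coord h1 0))
  line2 := by
    intro i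
    have hv := h.slice (⟨ht.1.le, ht.2⟩ : t ∈ Ico 0 T)
    have h1 := hasDerivAt_field_line hv x i 0
    have h2 := hasDerivAt_line x i 0
    have h3 := hasDerivAt_field_line2 hv x i 0
    have := (((hasDerivAt_coord h1 1).const_mul (e i 0)).add
      ((hasDerivAt_coord h2 0).mul (hasDerivAt_coord h3 1))).sub
      (((hasDerivAt_coord h1 0).const_mul (e i 1)).add
      ((hasDerivAt_coord h2 1).mul (hasDerivAt_coord h3 0)))
    refine this.congr_deriv ?_
    simp only [zero_smul, add_zero, circH]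
    ring

/-- the equation of the circulation, away from the axis -/
lemma IsAxisymNS.circ_equation (h : IsAxisymNS T u p) {t : ℝ} (ht : t ∈ Ioo 0 T) (x : E3)
    (hx : 0 < x 0 ^ 2 + x 1 ^ 2) :
    (x 0 * deriv (fun s => u s x) t 1 - x 1 * deriv (fun s => u s x) t 0)
      + ∑ i, u t x i * circD (u t) x i 0
    = ∑ i, circH (u t) x i
      - 2 / (x 0 ^ 2 + x 1 ^ 2) * (x 0 * circD (u t) x 0 0 + x 1 * circD (u t) x 1 0) := by
  have ht' : t ∈ Ico 0 T := ⟨ht.1.le, ht.2⟩
  obtain ⟨hA, hB⟩ := h.axis_identities ht' x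
  have hp := h.pressure_rotGen ht x
  have hns := h.navier_stokes t ht x
  have hns0 := congrArg (fun w : E3 => w 0) hns
  have hns1 := congrArg (fun w : E3 => w 1) hns
  have hconv := fderiv_expand (u t) x (u t x)
  have hconv0 := congrArg (fun w : E3 => w 0) hconv
  have hconv1 := congrArg (fun w : E3 => w 1) hconv
  have hlap := laplacian_eq_sum (u t) x
  have hlap0 := congrArg (fun w : E3 => w 0) hlap
  have hlap1 := congrArg (fun w : E3 => w 1) hlap
  simp only [Fin.sum_univ_three, PiLp.add_apply, PiLp.sub_apply, PiLp.smul_apply, smul_eq_mul,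
    PiLp.zero_apply] at hns0 hns1 hconv0 hconv1 hlap0 hlap1
  have hD : x 0 * circD (u t) x 0 0 + x 1 * circD (u t) x 1 0
      = (x 0 ^ 2 + x 1 ^ 2) * (fderiv ℝ (u t) x (e 0) 1 - fderiv ℝ (u t) x (e 1) 0) := by
    simp only [circD, zero_smul, add_zero, e_apply]
    simp only [Fin.isValue, if_true, Fin.reduceEq, if_false, one_mul, zero_mul, zero_add]
    linear_combination x 0 * hA + x 1 * hB
  rw [hD]
  have h2 : 2 / (x 0 ^ 2 + x 1 ^ 2) * ((x 0 ^ 2 + x 1 ^ 2) *
      (fderiv ℝ (u t) x (e 0) 1 - fderiv ℝ (u t) x (e 1) 0))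
      = 2 * (fderiv ℝ (u t) x (e 0) 1 - fderiv ℝ (u t) x (e 1) 0) := by
    field_simp
  rw [h2]
  simp only [circD, circH, zero_smul, add_zero, e_apply, Fin.sum_univ_three]
  simp only [Fin.isValue, if_true, Fin.reduceEq, if_false, one_mul, zero_mul, zero_add,
    mul_one, mul_zero]
  linear_combination x 0 * hns1 - x 1 * hns0 - hp - x 0 * hconv1 + x 1 * hconv0 + x 0 * hlap1
    - x 1 * hlap0

end sol

end Pool.Agent.H16
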