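import Mathlib
import Pool.Agent.H16.Jet

/-!
A one-sided comparison principle, on unbounded domains, for the operator
`∂_t + u·∇ - Δ + (2/r) ∂_r`.
-/

open Set Filter Topology
open scoped Laplacian Gradient ContDiff RealInnerProductSpace

namespace Pool.Agent.H16

lemma rad_nonneg (x : E3) : 0 ≤ rad x := Real.sqrt_nonneg _

lemma rad_sq (x : E3) : rad x ^ 2 = x 0 ^ 2 + x 1 ^ 2 := Real.sq_sqrt (by positivity)

lemma rad_pos_iff (x : E3) : 0 < rad x ↔ 0 < x 0 ^ 2 + x 1 ^ 2 := Real.sqrt_pos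

lemma continuous_coord (i : Fin 3) : Continuous fun x : E3 => x i := by fun_prop

lemma continuous_rad : Continuous rad := by
  unfold rad
  fun_prop

lemma rad_le_norm (x : E3) : rad x ≤ ‖x‖ := by
  apply le_of_sq_le_sq _ (norm_nonneg x) |> fun h => h
  rw [rad_sq, norm_sq_eq]
  nlinarith [sq_nonneg (x 2)]

/-- the growing auxiliary barrier -/
noncomputable def aux (ε k : ℝ) (t : ℝ) (x : E3) : ℝ :=
  ε * Real.exp (k * t) * (1 + (x 0 ^ 2 + x 1 ^ 2 + x 2 ^ 2))

lemma aux_jet (ε k t : ℝ) (x : E3) :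
    LineJet (aux ε k) t x (k * aux ε k t x)
      (fun i s => ε * Real.exp (k * t) * (2 * (x + s • e i) i))
      (fun _ => ε * Real.exp (k * t) * 2) where
  time := by
    unfold aux
    have h1 : HasDerivAt (fun s : ℝ => Real.exp (k * s)) (Real.exp (k * t) * k) t := by
      have := ((hasDerivAt_id t).const_mul k).exp
      simpa using this
    have h2 := (h1.const_mul ε).mul_const (1 + (x 0 ^ 2 + x 1 ^ 2 + x 2 ^ 2))
    refine h2.congr_deriv ?_
    ring
  line := by
    intro i
    refine Eventually.of_forall fun s => ?_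
    unfold aux
    have hc : ∀ j : Fin 3, HasDerivAt (fun s : ℝ => (x + s • e i) j ^ 2)
        (2 * (x + s • e i) j * e i j) s := by
      intro j
      have := (hasDerivAt_coord (hasDerivAt_line x i s) j).pow 2
      refine this.congr_deriv ?_
      simp
    have := ((((hc 0).add (hc 1)).add (hc 2)).const_add 1).const_mul (ε * Real.exp (k * t))
    refine this.congr_deriv ?_
    fin_cases i <;> simp [e_apply]
  line2 := by
    intro i
    have h1 := (hasDerivAt_coord (hasDerivAt_line x i 0) i)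
    have := (h1.const_mul 2).const_mul (ε * Real.exp (k * t))
    refine this.congr_deriv ?_
    simp [e_apply]

lemma final_ineq {k U N d : ℝ} (hk : k = 3 + U ^ 2) (hd : -(U * N) ≤ d)
    (hf : k * (1 + N ^ 2) + 2 * d ≤ 2) : False := by
  subst hk
  nlinarith [sq_nonneg (U - N), sq_nonneg (U * N), sq_nonneg N]

/-- The comparison principle. -/
theorem comparison {T : ℝ} {u : ℝ → E3 → E3} {p : ℝ → E3 → ℝ} (h : IsAxisymNS T u p)
    {T' : ℝ} (hT' : T' < T) {f Φ : ℝ → E3 → ℝ}
    (hfc : ContinuousOn (fun q : ℝ × E3 => f q.1 q.2) (Icc 0 T' ×ˢ univ))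
    {K : ℝ} (hfK : ∀ t ∈ Icc 0 T', ∀ x, f t x ≤ K * rad x)
    {G U : Set E3} (hG : IsClosed G) (hU : IsOpen U) (hUG : U ⊆ G)
    (hΦc : ContinuousOn (fun q : ℝ × E3 => Φ q.1 q.2) (Icc 0 T' ×ˢ {x | x ∈ G ∧ 0 < rad x}))
    (hΦ0 : ∀ t ∈ Icc 0 T', ∀ x ∈ G, 0 < rad x → 0 ≤ Φ t x)
    (hinit : ∀ x ∈ G, 0 < rad x → f 0 x ≤ Φ 0 x)
    (hbdry : ∀ t ∈ Icc 0 T', ∀ x ∈ G, x ∉ U → 0 < rad x → f t x ≤ Φ t x)
    (hbar : ∀ t ∈ Ioc 0 T', ∀ x ∈ U, 0 < rad x → Φ t x < f t x →
      ∃ (a : ℝ) (D : Fin 3 → ℝ → ℝ) (H : Fin 3 → ℝ) (a' : ℝ) (D' : Fin 3 → ℝ → ℝ)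
        (H' : Fin 3 → ℝ) (S : ℝ), LineJet f t x a D H ∧ LineJet Φ t x a' D' H' ∧
        a + ∑ i, u t x i * D i 0 ≤ ∑ i, H i
          - 2 / (x 0 ^ 2 + x 1 ^ 2) * (x 0 * D 0 0 + x 1 * D 1 0) + S ∧
        ∑ i, H' i - 2 / (x 0 ^ 2 + x 1 ^ 2) * (x 0 * D' 0 0 + x 1 * D' 1 0) + S
          ≤ a' + ∑ i, u t x i * D' i 0) :
    ∀ t ∈ Icc 0 T', ∀ x ∈ G, 0 < rad x → f t x ≤ Φ t x := by
  obtain ⟨U₀, hU₀⟩ := h.bounded T' hT'
  -- reduce to a perturbed strict inequality
  suffices hmain : ∀ ε > 0, ∀ t ∈ Icc 0 T', ∀ x ∈ G, 0 < rad x →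
      f t x - Φ t x - aux ε (3 + U₀ ^ 2) t x < 0 by
    intro t ht x hx hr
    have hlim : Tendsto (fun ε : ℝ => Φ t x + aux ε (3 + U₀ ^ 2) t x) (𝓝[>] 0)
        (𝓝 (Φ t x + aux 0 (3 + U₀ ^ 2) t x)) := by
      apply Tendsto.mono_left _ nhdsWithin_le_nhds
      have : Continuous fun ε : ℝ => Φ t x + aux ε (3 + U₀ ^ 2) t x := by
        unfold aux; fun_prop
      exact this.tendsto 0
    have h0 : Φ t x + aux 0 (3 + U₀ ^ 2) t x = Φ t x := by simp [aux]
    rw [h0] at hlim
    apply ge_of_tendsto hlim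
    filter_upwards [self_mem_nhdsWithin] with ε hε
    have := hmain ε hε t ht x hx hr
    linarith
  intro ε hε
  set k : ℝ := 3 + U₀ ^ 2 with hk
  set K' : ℝ := |K| + 1 with hK'
  have hK'pos : 0 < K' := by positivity
  have hKK' : K ≤ K' := by rw [hK']; linarith [le_abs_self K]
  have hfK' : ∀ t ∈ Icc 0 T', ∀ x, f t x ≤ K' * rad x := fun t ht x =>
    (hfK t ht x).trans (mul_le_mul_of_nonneg_right hKK' (rad_nonneg x))
  set δ : ℝ := ε / (2 * K') with hδ
  have hδpos : 0 < δ := by positivity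
  set l : ℝ := K' / ε + 1 with hl
  have hauxpos : ∀ t ∈ Icc 0 T', ∀ x, ε * (1 + ‖x‖ ^ 2) ≤ aux ε k t x := by
    intro t ht x
    unfold aux
    rw [norm_sq_eq]
    have : 1 ≤ Real.exp (k * t) := Real.one_le_exp (mul_nonneg (by positivity) ht.1)
    have h2 : 0 ≤ ε * (1 + (x 0 ^ 2 + x 1 ^ 2 + x 2 ^ 2)) := by positivity
    nlinarith
  -- near the axis and far away the inequality is clear
  have hnear : ∀ t ∈ Icc 0 T', ∀ x ∈ G, 0 < rad x → rad x ≤ δ → f t x - Φ t x - aux ε k t x < 0 := by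
    intro t ht x hx hr hrd
    have h1 := hfK' t ht x
    have h2 : K' * rad x ≤ K' * δ := mul_le_mul_of_nonneg_left hrd hK'pos.le
    have h3 : K' * δ = ε / 2 := by rw [hδ]; field_simp
    have h4 := hauxpos t ht x
    have h5 := hΦ0 t ht x hx hr
    nlinarith [sq_nonneg ‖x‖]
  have hfar : ∀ t ∈ Icc 0 T', ∀ x ∈ G, 0 < rad x → l ≤ ‖x‖ → f t x - Φ t x - aux ε k t x < 0 := by
    intro t ht x hx hr hlx
    have h1 := hfK' t ht x
    have h2 : K' * rad x ≤ K' * ‖x‖ := mul_le_mul_of_nonneg_left (rad_le_norm x) hK'pos.le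
    have h3 : K' < ε * ‖x‖ := by
      have : K' / ε < ‖x‖ := by linarith
      rwa [div_lt_iff₀' hε] at this
    have h4 := hauxpos t ht x
    have h5 := hΦ0 t ht x hx hr
    have h6 : K' * ‖x‖ ≤ ε * ‖x‖ ^ 2 := by nlinarith [norm_nonneg x]
    nlinarith
  set C : Set E3 := {x | x ∈ G ∧ δ ≤ rad x ∧ ‖x‖ ≤ l} with hC
  have hCcl : IsClosed C := by
    apply hG.inter
    exact (isClosed_le continuous_const continuous_rad).inter
      (isClosed_le continuous_norm continuous_const)
  have hCcomp : IsCompact C := by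
    apply Metric.isCompact_of_isClosed_isBounded hCcl
    apply (Metric.isBounded_closedBall (x := (0 : E3)) (r := l)).subset
    intro x hx
    simpa using hx.2.2
  have hCsub : ∀ x ∈ C, x ∈ G ∧ 0 < rad x := fun x hx => ⟨hx.1, lt_of_lt_of_le hδpos hx.2.1⟩
  -- open part of C
  have hopen : IsOpen {x | x ∈ U ∧ δ < rad x ∧ ‖x‖ < l} := by
    apply hU.inter
    exact (isOpen_lt continuous_const continuous_rad).inter
      (isOpen_lt continuous_norm continuous_const)
  have hopensub : {x | x ∈ U ∧ δ < rad x ∧ ‖x‖ < l} ⊆ C :=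
    fun x hx => ⟨hUG hx.1, hx.2.1.le, hx.2.2.le⟩
  have hWC : ∀ t ∈ Icc 0 T', ∀ x ∈ C, f t x - Φ t x - aux ε k t x < 0 := by
    apply first_touch (W := fun t x => f t x - Φ t x - aux ε k t x) hCcomp
    · -- continuity
      have h1 : ContinuousOn (fun q : ℝ × E3 => f q.1 q.2) (Icc 0 T' ×ˢ C) :=
        hfc.mono (prod_mono le_rfl (subset_univ _))
      have h2 : ContinuousOn (fun q : ℝ × E3 => Φ q.1 q.2) (Icc 0 T' ×ˢ C) :=
        hΦc.mono (prod_mono le_rfl (fun x hx => hCsub x hx))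
      have h3 : Continuous (fun q : ℝ × E3 => aux ε k q.1 q.2) := by
        unfold aux; fun_prop
      exact (h1.sub h2).sub h3.continuousOn
    · intro x hx
      by_cases hT0 : 0 ≤ T'
      · have h1 := hinit x (hCsub x hx).1 (hCsub x hx).2
        have h2 := hauxpos 0 ⟨le_rfl, hT0⟩ x
        have : 0 < ε * (1 + ‖x‖ ^ 2) := by positivity
        linarith
      · have h1 := hinit x (hCsub x hx).1 (hCsub x hx).2
        have h2 : 0 < aux ε k 0 x := by unfold aux; positivity
        linarith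
    · intro t ht x hx hni
      by_cases hxU : x ∈ U
      · by_cases hd : δ < rad x
        · by_cases hll : ‖x‖ < l
          · exfalso
            apply hni
            exact (interior_maximal hopensub hopen) ⟨hxU, hd, hll⟩
          · exact hfar t ht x hx.1 (hCsub x hx).2 (not_lt.1 hll)
        · exact hnear t ht x hx.1 (hCsub x hx).2 (not_lt.1 hd)
      · have h1 := hbdry t ht x hx.1 hxU (hCsub x hx).2
        have h2 := hauxpos t ht x
        have : 0 < ε * (1 + ‖x‖ ^ 2) := by positivity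
        linarith
    · intro t ht x hx hWz hWneg hWle
      have ht' : t ∈ Icc 0 T' := ⟨ht.1.le, ht.2⟩
      have hxC : x ∈ C := interior_subset hx
      have hr : 0 < rad x := (hCsub x hxC).2
      have hρ : 0 < x 0 ^ 2 + x 1 ^ 2 := (rad_pos_iff x).1 hr
      have hauxx := hauxpos t ht' x
      have hauxx' : 0 < ε * (1 + ‖x‖ ^ 2) := by positivity
      have hxU : x ∈ U := by
        by_contra hxU
        have h1 := hbdry t ht' x hxC.1 hxU hr
        linarith
      have hgt : Φ t x < f t x := by linarith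
      obtain ⟨a, D, H, a', D', H', S, hj, hj', hin, hin'⟩ := hbar t ht x hxU hr hgt
      have hja := aux_jet ε k t x
      -- the jet of W
      have hW := (hj.add hj'.neg).add hja.neg
      have htime : 0 ≤ a + -a' + -(k * aux ε k t x) := by
        have h1 := hW.time
        refine deriv_nonneg_of_left ht.1 h1 ?_ ?_
        · linarith
        · intro s hs
          have := hWneg s hs
          linarith
      have hspace : ∀ i, (D i 0 + - D' i 0) + -(ε * Real.exp (k * t) * (2 * (x + (0:ℝ) • e i) i)) = 0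
          ∧ (H i + - H' i) + -(ε * Real.exp (k * t) * 2) ≤ 0 := by
        intro i
        have hloc : IsLocalMax (fun s : ℝ => (f t (x + s • e i) + - Φ t (x + s • e i)) +
            - aux ε k t (x + s • e i)) 0 := by
          have hcont : ContinuousAt (fun s : ℝ => x + s • e i) 0 := by fun_prop
          have hmem : ∀ᶠ s : ℝ in 𝓝 0, x + s • e i ∈ interior C := by
            apply hcont.eventually_mem
            simpa using isOpen_interior.mem_nhds hx
          filter_upwards [hmem] with s hs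
          have h1 := hWle _ hs
          simp only [zero_smul, add_zero] at h1 hWz ⊢
          linarith
        exact second_order_max (hW.line i) (hW.line2 i) hloc
      -- combine
      set E := ε * Real.exp (k * t) with hE
      have hEpos : 0 < E := by positivity
      have hD0 : D 0 0 = D' 0 0 + E * (2 * x 0) := by
        have := (hspace 0).1; simp only [zero_smul, add_zero] at this; linarith
      have hD1 : D 1 0 = D' 1 0 + E * (2 * x 1) := by
        have := (hspace 1).1; simp only [zero_smul, add_zero] at this; linarith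
      have hD2 : D 2 0 = D' 2 0 + E * (2 * x 2) := by
        have := (hspace 2).1; simp only [zero_smul, add_zero] at this; linarith
      have hH0 := (hspace 0).2
      have hH1 := (hspace 1).2
      have hH2 := (hspace 2).2
      simp only [Fin.sum_univ_three] at hin hin'
      rw [hD0, hD1, hD2] at hin
      have hsplit : 2 / (x 0 ^ 2 + x 1 ^ 2) * (x 0 * (D' 0 0 + E * (2 * x 0)) +
          x 1 * (D' 1 0 + E * (2 * x 1))) = 2 / (x 0 ^ 2 + x 1 ^ 2) *
          (x 0 * D' 0 0 + x 1 * D' 1 0) + 4 * E := by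
        field_simp
        ring
      rw [hsplit] at hin
      have hauxval : aux ε k t x = E * (1 + ‖x‖ ^ 2) := by
        rw [norm_sq_eq]; simp only [aux, hE]
      have hUx : |u t x 0 * x 0 + u t x 1 * x 1 + u t x 2 * x 2| ≤ U₀ * ‖x‖ := by
        have h1 : |⟪u t x, x⟫| ≤ ‖u t x‖ * ‖x‖ := abs_real_inner_le_norm _ _
        rw [inner_eq] at h1
        exact h1.trans (mul_le_mul_of_nonneg_right (hU₀ t ht' x) (norm_nonneg _))
      have hUx' := (abs_le.1 hUx).1
      have hfinal : k * (1 + ‖x‖ ^ 2) + 2 * (u t x 0 * x 0 + u t x 1 * x 1 + u t x 2 * x 2) ≤ 2 := by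
        have : E * (k * (1 + ‖x‖ ^ 2) + 2 * (u t x 0 * x 0 + u t x 1 * x 1 + u t x 2 * x 2))
            ≤ E * 2 := by
          rw [hauxval] at htime
          linarith [hin, hin', htime, hH0, hH1, hH2]
        exact le_of_mul_le_mul_left this hEpos
      exact final_ineq hk hUx' hfinal
  intro t ht x hx hr
  by_cases hd : δ ≤ rad x
  · by_cases hll : ‖x‖ ≤ l
    · exact hWC t ht x ⟨hx, hd, hll⟩
    · exact hfar t ht x hx hr (not_le.1 hll).le
  · exact hnear t ht x hx hr (not_le.1 hd).le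

end Pool.Agent.H16
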