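import Mathlib
import Pool.Agent.H16.Comparison

/-!
Radial barriers, the maximum principle for the circulation, and the jet of `r u_r`.
-/

open Set Filter Topology
open scoped Laplacian Gradient ContDiff RealInnerProductSpace

namespace Pool.Agent.H16

/-- square of the distance to the axis -/
noncomputable def rsq (x : E3) : ℝ := x 0 ^ 2 + x 1 ^ 2

lemma rad_sq' (x : E3) : rad x ^ 2 = rsq x := rad_sq x

lemma rsq_pos {x : E3} (h : 0 < rad x) : 0 < rsq x := (rad_pos_iff x).1 h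

lemma log_rad (x : E3) : Real.log (rad x) = Real.log (rsq x) / 2 := by
  unfold rad rsq
  rw [Real.log_sqrt (by positivity)]

/-- radial line derivatives -/
noncomputable def radD (c : ℝ) (ψ' : ℝ → ℝ) (x : E3) (i : Fin 3) (s : ℝ) : ℝ :=
  c * (ψ' (rsq (x + s • e i)) * (2 * (x + s • e i) 0 * e i 0 + 2 * (x + s • e i) 1 * e i 1))

noncomputable def radH (c ψ1 ψ2 : ℝ) (x : E3) (i : Fin 3) : ℝ :=
  c * (ψ2 * (2 * x 0 * e i 0 + 2 * x 1 * e i 1) ^ 2 + ψ1 * (2 * e i 0 ^ 2 + 2 * e i 1 ^ 2))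

lemma hasDerivAt_rsq_line (x : E3) (i : Fin 3) (s : ℝ) :
    HasDerivAt (fun s : ℝ => rsq (x + s • e i))
      (2 * (x + s • e i) 0 * e i 0 + 2 * (x + s • e i) 1 * e i 1) s := by
  have hc : ∀ j : Fin 3, HasDerivAt (fun s : ℝ => (x + s • e i) j ^ 2)
      (2 * (x + s • e i) j * e i j) s := by
    intro j
    have := (hasDerivAt_coord (hasDerivAt_line x i s) j).pow 2
    refine this.congr_deriv ?_
    simp
  exact (hc 0).add (hc 1)

lemma radial_jet {a : ℝ → ℝ} {ψ ψ' : ℝ → ℝ} {t a1 ψ2 : ℝ} {x : E3}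
    (ha : HasDerivAt a a1 t)
    (hψ : ∀ᶠ ρ in 𝓝 (rsq x), HasDerivAt ψ (ψ' ρ) ρ) (hψ' : HasDerivAt ψ' ψ2 (rsq x)) :
    LineJet (fun t x => a t * ψ (rsq x)) t x (a1 * ψ (rsq x)) (radD (a t) ψ' x)
      (radH (a t) (ψ' (rsq x)) ψ2 x) where
  time := ha.mul_const _
  line := by
    intro i
    have hcont : ContinuousAt (fun s : ℝ => rsq (x + s • e i)) 0 :=
      (hasDerivAt_rsq_line x i 0).continuousAt
    have h0 : rsq (x + (0:ℝ) • e i) = rsq x := by simp
    have hev : ∀ᶠ s : ℝ in 𝓝 0, HasDerivAt ψ (ψ' (rsq (x + s • e i))) (rsq (x + s • e i)) := by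
      have : Tendsto (fun s : ℝ => rsq (x + s • e i)) (𝓝 0) (𝓝 (rsq x)) := by
        have h1 := hcont.tendsto
        rw [h0] at h1
        exact h1
      exact this.eventually hψ
    filter_upwards [hev] with s hs
    exact (hs.comp s (hasDerivAt_rsq_line x i s)).const_mul (a t)
  line2 := by
    intro i
    have h0 : rsq (x + (0:ℝ) • e i) = rsq x := by simp
    have h1 : HasDerivAt (fun s : ℝ => ψ' (rsq (x + s • e i)))
        (ψ2 * (2 * (x + (0:ℝ) • e i) 0 * e i 0 + 2 * (x + (0:ℝ) • e i) 1 * e i 1)) 0 := by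
      apply HasDerivAt.comp (h₂ := ψ') (0:ℝ) _ (hasDerivAt_rsq_line x i 0)
      rw [h0]; exact hψ'
    have h2 : HasDerivAt (fun s : ℝ => 2 * (x + s • e i) 0 * e i 0 + 2 * (x + s • e i) 1 * e i 1)
        (2 * e i 0 * e i 0 + 2 * e i 1 * e i 1) 0 := by
      exact ((((hasDerivAt_coord (hasDerivAt_line x i 0) 0).const_mul 2).mul_const (e i 0))).add
        ((((hasDerivAt_coord (hasDerivAt_line x i 0) 1).const_mul 2).mul_const (e i 1)))
    have := (h1.mul h2).const_mul (a t)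
    refine this.congr_deriv ?_
    simp only [zero_smul, add_zero, radH]
    ring

lemma radial_first (c : ℝ) (ψ' : ℝ → ℝ) (x w : E3) :
    ∑ i, w i * radD c ψ' x i 0 = c * (2 * (x 0 * w 0 + x 1 * w 1) * ψ' (rsq x)) := by
  simp only [Fin.sum_univ_three, radD, zero_smul, add_zero, e_apply]
  simp only [Fin.isValue, if_true, Fin.reduceEq, if_false]
  ring

lemma radial_second (c : ℝ) (ψ' : ℝ → ℝ) (ψ2 : ℝ) (x : E3) (hx : 0 < rsq x) :
    ∑ i, radH c (ψ' (rsq x)) ψ2 x i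
      - 2 / (x 0 ^ 2 + x 1 ^ 2) * (x 0 * radD c ψ' x 0 0 + x 1 * radD c ψ' x 1 0)
    = c * (4 * rsq x * ψ2) := by
  have h1 : x 0 ^ 2 + x 1 ^ 2 = rsq x := rfl
  have h2 : x 0 * radD c ψ' x 0 0 + x 1 * radD c ψ' x 1 0 = c * (ψ' (rsq x) * (2 * rsq x)) := by
    simp only [radD, zero_smul, add_zero, e_apply]
    simp only [Fin.isValue, if_true, Fin.reduceEq, if_false]
    rw [← h1]
    ring
  rw [h2, h1]
  have h3 : 2 / rsq x * (c * (ψ' (rsq x) * (2 * rsq x))) = c * (4 * ψ' (rsq x)) := by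
    field_simp
    ring
  rw [h3]
  simp only [Fin.sum_univ_three, radH, e_apply]
  simp only [Fin.isValue, if_true, Fin.reduceEq, if_false]
  rw [← h1]
  ring

/-! ### growth bounds -/

lemma circ_le (v : E3 → E3) (x : E3) : |circ v x| ≤ rad x * ‖v x‖ := by
  apply abs_le_of_sq_le_sq _ (mul_nonneg (rad_nonneg x) (norm_nonneg _))
  rw [mul_pow, rad_sq, norm_sq_eq]
  unfold circ
  nlinarith [sq_nonneg (x 0 * v x 0 + x 1 * v x 1), sq_nonneg (v x 2),
    mul_nonneg (add_nonneg (sq_nonneg (x 0)) (sq_nonneg (x 1))) (sq_nonneg (v x 2))]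

lemma radFlux_le (v : E3 → E3) (x : E3) : |radFlux v x| ≤ rad x * ‖v x‖ := by
  apply abs_le_of_sq_le_sq _ (mul_nonneg (rad_nonneg x) (norm_nonneg _))
  rw [mul_pow, rad_sq, norm_sq_eq]
  unfold radFlux
  nlinarith [sq_nonneg (x 0 * v x 1 - x 1 * v x 0), sq_nonneg (v x 2),
    mul_nonneg (add_nonneg (sq_nonneg (x 0)) (sq_nonneg (x 1))) (sq_nonneg (v x 2))]

section sol

variable {T : ℝ} {u : ℝ → E3 → E3} {p : ℝ → E3 → ℝ}

lemma IsAxisymNS.continuousOn_u (h : IsAxisymNS T u p) {T' : ℝ} (hT' : T' < T) :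
    ContinuousOn (fun q : ℝ × E3 => u q.1 q.2) (Icc 0 T' ×ˢ univ) :=
  h.smooth_u.continuousOn.mono (prod_mono (fun _ ht => ⟨ht.1, ht.2.trans_lt hT'⟩) le_rfl)

lemma IsAxisymNS.continuousOn_circ (h : IsAxisymNS T u p) {T' : ℝ} (hT' : T' < T) :
    ContinuousOn (fun q : ℝ × E3 => circ (u q.1) q.2) (Icc 0 T' ×ˢ univ) := by
  have h1 := h.continuousOn_u hT'
  have hc : ∀ i : Fin 3, ContinuousOn (fun q : ℝ × E3 => u q.1 q.2 i) (Icc 0 T' ×ˢ univ) :=
    fun i => (continuous_coord i).comp_continuousOn h1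
  have hx : ∀ i : Fin 3, ContinuousOn (fun q : ℝ × E3 => q.2 i) (Icc 0 T' ×ˢ univ) :=
    fun i => ((continuous_coord i).comp continuous_snd).continuousOn
  exact ((hx 0).mul (hc 1)).sub ((hx 1).mul (hc 0))

lemma IsAxisymNS.continuousOn_radFlux (h : IsAxisymNS T u p) {T' : ℝ} (hT' : T' < T) :
    ContinuousOn (fun q : ℝ × E3 => radFlux (u q.1) q.2) (Icc 0 T' ×ˢ univ) := by
  have h1 := h.continuousOn_u hT'
  have hc : ∀ i : Fin 3, ContinuousOn (fun q : ℝ × E3 => u q.1 q.2 i) (Icc 0 T' ×ˢ univ) :=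
    fun i => (continuous_coord i).comp_continuousOn h1
  have hx : ∀ i : Fin 3, ContinuousOn (fun q : ℝ × E3 => q.2 i) (Icc 0 T' ×ˢ univ) :=
    fun i => ((continuous_coord i).comp continuous_snd).continuousOn
  exact ((hx 0).mul (hc 0)).add ((hx 1).mul (hc 1))

/-- a sign times the circulation: jet and equation -/
lemma IsAxisymNS.signed_circ (h : IsAxisymNS T u p) {t : ℝ} (ht : t ∈ Ioo 0 T) (x : E3)
    (hx : 0 < rad x) (σ : ℝ) :
    ∃ (a : ℝ) (D : Fin 3 → ℝ → ℝ) (H : Fin 3 → ℝ),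
      LineJet (fun t x => σ * circ (u t) x) t x a D H ∧
      a + ∑ i, u t x i * D i 0 ≤ ∑ i, H i
          - 2 / (x 0 ^ 2 + x 1 ^ 2) * (x 0 * D 0 0 + x 1 * D 1 0) + 0 := by
  have hj := h.circ_jet ht x
  have heq := h.circ_equation ht x (rsq_pos hx)
  refine ⟨σ * (x 0 * deriv (fun s => u s x) t 1 - x 1 * deriv (fun s => u s x) t 0),
    fun i s => σ * circD (u t) x i s, fun i => σ * circH (u t) x i,
    ⟨hj.time.const_mul σ, fun i => (hj.line i).mono fun _ hs => hs.const_mul σ,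
      fun i => (hj.line2 i).const_mul σ⟩, ?_⟩
  simp only [Fin.sum_univ_three] at heq ⊢
  apply le_of_eq
  linear_combination σ * heq

/-- The one-sided barrier theorem for the circulation in the form used below: the barrier is
`a(t) ψ(r²)` in the cylinder `0 < r < R`. -/
theorem IsAxisymNS.circ_barrier (h : IsAxisymNS T u p) {T' : ℝ} (hT' : T' < T)
    {R : ℝ} {a a1 ψ ψ' ψ2 : ℝ → ℝ}
    (hac : ContinuousOn a (Icc 0 T')) (ha : ∀ t ∈ Ioc 0 T', HasDerivAt a (a1 t) t)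
    (ha0 : ∀ t ∈ Icc 0 T', 0 ≤ a t)
    (hψ : ∀ ρ ∈ Ioc 0 (R ^ 2), HasDerivAt ψ (ψ' ρ) ρ)
    (hψnear : ∀ ρ ∈ Ioo 0 (R ^ 2), HasDerivAt ψ' (ψ2 ρ) ρ)
    (hψ0 : ∀ ρ ∈ Ioc 0 (R ^ 2), 0 ≤ ψ ρ)
    (hinit : ∀ x, 0 < rad x → rad x ≤ R → |circ (u 0) x| ≤ a 0 * ψ (rsq x))
    (hbdry : ∀ t ∈ Icc 0 T', ∀ x, 0 < rad x → rad x = R → |circ (u t) x| ≤ a t * ψ (rsq x))
    (hbar : ∀ t ∈ Ioc 0 T', ∀ x, 0 < rad x → rad x < R → a t * ψ (rsq x) < |circ (u t) x| →
      a t * (4 * rsq x * ψ2 (rsq x)) ≤ a1 t * ψ (rsq x)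
        + a t * (2 * radFlux (u t) x * ψ' (rsq x))) :
    ∀ t ∈ Icc 0 T', ∀ x, 0 < rad x → rad x ≤ R → |circ (u t) x| ≤ a t * ψ (rsq x) := by
  by_cases hR : 0 < R
  swap
  · intro t _ x hx hxR
    exact absurd (hx.trans_le hxR) hR
  obtain ⟨K, hK⟩ := h.bounded T' hT'
  have key : ∀ σ : ℝ, |σ| = 1 → ∀ t ∈ Icc 0 T', ∀ x ∈ {x : E3 | rad x ≤ R}, 0 < rad x →
      σ * circ (u t) x ≤ a t * ψ (rsq x) := by
    intro σ hσ
    have hle : ∀ t x, σ * circ (u t) x ≤ |circ (u t) x| := by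
      intro t x
      calc σ * circ (u t) x ≤ |σ * circ (u t) x| := le_abs_self _
        _ = |circ (u t) x| := by rw [abs_mul, hσ, one_mul]
    have hcirc := h.continuousOn_circ hT'
    have hU : IsOpen {x : E3 | rad x < R} := isOpen_lt continuous_rad continuous_const
    have hG : IsClosed {x : E3 | rad x ≤ R} := isClosed_le continuous_rad continuous_const
    refine comparison h hT' (f := fun t x => σ * circ (u t) x)
      (Φ := fun t x => a t * ψ (rsq x)) (G := {x : E3 | rad x ≤ R}) (U := {x : E3 | rad x < R})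
      (K := K) ?_ ?_ hG hU (fun x (hx : rad x < R) => (le_of_lt hx : rad x ≤ R)) ?_ ?_ ?_ ?_ ?_
    · exact continuousOn_const.mul hcirc
    · intro t ht x
      calc σ * circ (u t) x ≤ |circ (u t) x| := hle t x
        _ ≤ rad x * ‖u t x‖ := circ_le _ _
        _ ≤ K * rad x := by
          rw [mul_comm]
          exact mul_le_mul_of_nonneg_right (hK t ht x) (rad_nonneg x)
    · -- continuity of the barrier
      have h1 : ContinuousOn (fun q : ℝ × E3 => a q.1)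
          (Icc 0 T' ×ˢ {x | x ∈ {x : E3 | rad x ≤ R} ∧ 0 < rad x}) :=
        hac.comp continuousOn_fst (fun q hq => hq.1)
      have h2 : ContinuousOn ψ (Ioc 0 (R ^ 2)) := fun ρ hρ => (hψ ρ hρ).continuousAt.continuousWithinAt
      have h3 : Continuous fun q : ℝ × E3 => rsq q.2 := by unfold rsq; fun_prop
      have h4 : ContinuousOn (fun q : ℝ × E3 => ψ (rsq q.2))
          (Icc 0 T' ×ˢ {x | x ∈ {x : E3 | rad x ≤ R} ∧ 0 < rad x}) := by
        apply h2.comp h3.continuousOn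
        rintro ⟨t, x⟩ ⟨_, hx1, hx2⟩
        refine ⟨rsq_pos hx2, ?_⟩
        change rsq x ≤ R ^ 2
        rw [← rad_sq']
        exact pow_le_pow_left₀ (rad_nonneg x) hx1 2
      exact h1.mul h4
    · intro t ht x hx hr
      refine mul_nonneg (ha0 t ht) (hψ0 _ ⟨rsq_pos hr, ?_⟩)
      rw [← rad_sq']
      exact pow_le_pow_left₀ (rad_nonneg x) hx 2
    · intro x hx hr
      exact (hle 0 x).trans (hinit x hr hx)
    · intro t ht x hx hxU hr
      have : rad x = R := le_antisymm hx (not_lt.1 hxU)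
      exact (hle t x).trans (hbdry t ht x hr this)
    · intro t ht x hx hr hlt
      have ht' : t ∈ Ioo 0 T := ⟨ht.1, ht.2.trans_lt hT'⟩
      obtain ⟨b, D, H, hj, hin⟩ := h.signed_circ ht' x hr σ
      have hρ : rsq x ∈ Ioo 0 (R ^ 2) := by
        refine ⟨rsq_pos hr, ?_⟩
        rw [← rad_sq']
        exact pow_lt_pow_left₀ hx (rad_nonneg x) two_ne_zero
      have hjr := radial_jet (ha t ht)
        (show ∀ᶠ ρ in 𝓝 (rsq x), HasDerivAt ψ (ψ' ρ) ρ from by
          filter_upwards [Ioo_mem_nhds hρ.1 hρ.2] with ρ hρ'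
          exact hψ ρ ⟨hρ'.1, hρ'.2.le⟩) (hψnear (rsq x) hρ)
      refine ⟨b, D, H, _, _, _, 0, hj, hjr, hin, ?_⟩
      rw [radial_second _ _ _ _ hρ.1, radial_first]
      have := hbar t ht x hr hx (hlt.trans_le (hle t x))
      simpa [radFlux] using this
  intro t ht x hr hxR
  rw [abs_le]
  constructor
  · have := key (-1) (by simp) t ht x hxR hr
    linarith
  · have := key 1 (by simp) t ht x hxR hr
    linarith

/-- The maximum principle for the circulation. -/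
theorem IsAxisymNS.circ_max (h : IsAxisymNS T u p) {M : ℝ} (hM : ∀ x, |circ (u 0) x| ≤ M) :
    ∀ t ∈ Ico 0 T, ∀ x, |circ (u t) x| ≤ M := by
  have hM0 : 0 ≤ M := (abs_nonneg _).trans (hM 0)
  intro t ht x
  obtain ⟨K, hK⟩ := h.bounded t ht.2
  have key : ∀ σ : ℝ, |σ| = 1 → ∀ s ∈ Icc 0 t, ∀ x ∈ (univ : Set E3), 0 < rad x →
      σ * circ (u s) x ≤ M := by
    intro σ hσ
    have hle : ∀ t x, σ * circ (u t) x ≤ |circ (u t) x| := by
      intro t x
      calc σ * circ (u t) x ≤ |σ * circ (u t) x| := le_abs_self _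
        _ = |circ (u t) x| := by rw [abs_mul, hσ, one_mul]
    refine comparison h ht.2 (f := fun t x => σ * circ (u t) x)
      (Φ := fun _ _ => M) (G := univ) (U := univ)
      (K := K) ?_ ?_ isClosed_univ isOpen_univ le_rfl ?_ ?_ ?_ ?_ ?_
    · exact continuousOn_const.mul (h.continuousOn_circ ht.2)
    · intro t ht x
      calc σ * circ (u t) x ≤ |circ (u t) x| := hle t x
        _ ≤ rad x * ‖u t x‖ := circ_le _ _
        _ ≤ K * rad x := by
          rw [mul_comm]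
          exact mul_le_mul_of_nonneg_right (hK t ht x) (rad_nonneg x)
    · exact continuousOn_const
    · intro _ _ _ _ _; exact hM0
    · intro x _ _; exact (hle 0 x).trans (hM x)
    · intro s _ x _ hx; exact absurd (mem_univ x) hx
    · intro s hs x _ hr _
      have hs' : s ∈ Ioo 0 T := ⟨hs.1, hs.2.trans_lt ht.2⟩
      obtain ⟨b, D, H, hj, hin⟩ := h.signed_circ hs' x hr σ
      refine ⟨b, D, H, 0, fun _ _ => 0, fun _ => 0, 0, hj, ?_, hin, by simp⟩
      exact ⟨hasDerivAt_const _ _, fun i => Eventually.of_forall fun s => hasDerivAt_const _ _,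
        fun i => hasDerivAt_const _ _⟩
  rcases eq_or_lt_of_le (rad_nonneg x) with hr | hr
  · have := circ_le (u t) x
    rw [← hr, zero_mul] at this
    exact this.trans hM0
  · rw [abs_le]
    constructor
    · have := key (-1) (by simp) t ⟨ht.1, le_rfl⟩ x (mem_univ _) hr
      linarith
    · have := key 1 (by simp) t ⟨ht.1, le_rfl⟩ x (mem_univ _) hr
      linarith

end sol

end Pool.Agent.H16
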