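import Mathlib
import Pool.Agent.H16.Radial

/-!
Ancient axisymmetric solutions.
-/

open Set Filter Topology MeasureTheory
open scoped Laplacian Gradient ContDiff RealInnerProductSpace

namespace Pool.Agent.H16

/-- `(u, p)` is a smooth axisymmetric ancient solution of the three-dimensional incompressible
Navier-Stokes equations with unit viscosity on `(-∞, 0) × ℝ³`, with `u` bounded. -/
structure IsAncientAxisymNS (u : ℝ → E3 → E3) (p : ℝ → E3 → ℝ) : Prop where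
  smooth_u : ContDiffOn ℝ ∞ (fun q : ℝ × E3 => u q.1 q.2) (Iio 0 ×ˢ univ)
  smooth_p : ContDiffOn ℝ ∞ (fun q : ℝ × E3 => p q.1 q.2) (Iio 0 ×ˢ univ)
  bounded : ∃ K, ∀ t < 0, ∀ x, ‖u t x‖ ≤ K
  axisymmetric : ∀ t < 0, ∀ θ x, u t (rot θ x) = rot θ (u t x)
  divergence_free : ∀ t < 0, ∀ x,
    ∑ i : Fin 3, fderiv ℝ (u t) x (EuclideanSpace.single i 1) i = 0
  navier_stokes : ∀ t < 0, ∀ x,
    deriv (fun s => u s x) t + fderiv ℝ (u t) x (u t x) - Δ (u t) x + ∇ (p t) x = 0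

lemma IsAncientAxisymNS.shift {u : ℝ → E3 → E3} {p : ℝ → E3 → ℝ} (h : IsAncientAxisymNS u p)
    (τ : ℝ) : IsAxisymNS (-τ) (fun s => u (s + τ)) (fun s => p (s + τ)) where
  smooth_u := by
    have hmap : ContDiffOn ℝ ∞ (fun q : ℝ × E3 => (q.1 + τ, q.2)) (Ico 0 (-τ) ×ˢ univ) := by
      fun_prop
    exact h.smooth_u.comp hmap (fun q hq => ⟨by
      have := hq.1.2
      simp only [mem_Iio]
      linarith, mem_univ _⟩)
  smooth_p := by
    have hmap : ContDiffOn ℝ ∞ (fun q : ℝ × E3 => (q.1 + τ, q.2)) (Ico 0 (-τ) ×ˢ univ) := by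
      fun_prop
    exact h.smooth_p.comp hmap (fun q hq => ⟨by
      have := hq.1.2
      simp only [mem_Iio]
      linarith, mem_univ _⟩)
  bounded := by
    obtain ⟨K, hK⟩ := h.bounded
    intro T' hT'
    exact ⟨K, fun t ht x => hK (t + τ) (by linarith [ht.2]) x⟩
  axisymmetric := fun t ht θ x => h.axisymmetric (t + τ) (by linarith [ht.2]) θ x
  divergence_free := fun t ht x => h.divergence_free (t + τ) (by linarith [ht.2]) x
  navier_stokes := by
    intro t ht x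
    have h1 := h.navier_stokes (t + τ) (by linarith [ht.2]) x
    have h2 : deriv (fun s => u (s + τ) x) t = deriv (fun s => u s x) (t + τ) :=
      deriv_comp_add_const (f := fun s => u s x) τ t
    rw [h2]
    exact h1

/-! ### explicit barriers -/

/-- the derivative of the doubly logarithmic barrier -/
noncomputable def ll1 (N σ : ℝ) : ℝ :=
  Real.exp (N / (1 + √σ)) / ((1 + σ) * Real.log (Real.exp 1 + σ))

noncomputable def ll (N ρ : ℝ) : ℝ := ∫ σ in (0:ℝ)..ρ, ll1 N σ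

/-- the logarithmic derivative of `ll1` -/
noncomputable def llr (N σ : ℝ) : ℝ :=
  -(N / (2 * √σ * (1 + √σ) ^ 2) + 1 / (1 + σ)
    + 1 / ((Real.exp 1 + σ) * Real.log (Real.exp 1 + σ)))

lemma log_e_add {σ : ℝ} (hσ : 0 ≤ σ) : 1 ≤ Real.log (Real.exp 1 + σ) := by
  have : Real.log (Real.exp 1) ≤ Real.log (Real.exp 1 + σ) :=
    Real.log_le_log (Real.exp_pos _) (by linarith)
  rwa [Real.log_exp] at this

lemma ll1_pos {N σ : ℝ} (hσ : 0 ≤ σ) : 0 < ll1 N σ := by
  unfold ll1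
  have := log_e_add hσ
  positivity

lemma ll1_continuousOn (N : ℝ) : ContinuousOn (ll1 N) (Ici 0) := by
  unfold ll1
  apply ContinuousOn.div
  · apply Real.continuous_exp.comp_continuousOn
    apply ContinuousOn.div continuousOn_const (by fun_prop)
    intro x _
    positivity
  · apply ContinuousOn.mul (by fun_prop)
    apply ContinuousOn.log (by fun_prop)
    intro x hx
    have : (0:ℝ) ≤ x := hx
    positivity
  · intro x hx
    have hx' : (0:ℝ) ≤ x := hx
    have := log_e_add hx'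
    positivity

lemma ll1_intervalIntegrable (N : ℝ) {ρ : ℝ} (hρ : 0 ≤ ρ) :
    IntervalIntegrable (ll1 N) volume 0 ρ := by
  apply ContinuousOn.intervalIntegrable
  rw [uIcc_of_le hρ]
  exact (ll1_continuousOn N).mono (fun x hx => hx.1)

lemma hasDerivAt_ll (N : ℝ) {ρ : ℝ} (hρ : 0 < ρ) : HasDerivAt (ll N) (ll1 N ρ) ρ := by
  unfold ll
  apply intervalIntegral.integral_hasDerivAt_right (ll1_intervalIntegrable N hρ.le)
  · exact ((ll1_continuousOn N).mono Ioi_subset_Ici_self).stronglyMeasurableAtFilter isOpen_Ioi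
      ρ hρ
  · exact (ll1_continuousOn N).continuousAt (Ici_mem_nhds hρ)

lemma hasDerivAt_ll1 (N : ℝ) {ρ : ℝ} (hρ : 0 < ρ) :
    HasDerivAt (ll1 N) (ll1 N ρ * llr N ρ) ρ := by
  have hs : 0 < √ρ := Real.sqrt_pos.2 hρ
  have hl := log_e_add hρ.le
  have h0 : HasDerivAt (fun σ : ℝ => 1 + √σ) (1 / (2 * √ρ)) ρ :=
    (Real.hasDerivAt_sqrt hρ.ne').const_add 1
  have h1 : HasDerivAt (fun σ : ℝ => N / (1 + √σ)) (-(N / (2 * √ρ * (1 + √ρ) ^ 2))) ρ := by
    have := (hasDerivAt_const ρ N).div h0 (by positivity)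
    refine this.congr_deriv ?_
    field_simp
    ring
  have h2 := h1.exp
  have h3 : HasDerivAt (fun σ : ℝ => 1 + σ) 1 ρ := (hasDerivAt_id ρ).const_add 1
  have h4 : HasDerivAt (fun σ : ℝ => Real.log (Real.exp 1 + σ)) (1 / (Real.exp 1 + ρ)) ρ := by
    have := ((hasDerivAt_id ρ).const_add (Real.exp 1)).log (by simp only [id]; positivity)
    simpa using this
  have h5 := h2.div (h3.mul h4) (by
    change (1 + ρ) * Real.log (Real.exp 1 + ρ) ≠ 0
    positivity)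
  refine h5.congr_deriv ?_
  unfold ll1 llr
  simp only [Pi.mul_apply]
  field_simp
  ring

/-- divergence of the barrier -/
lemma ll_tendsto {N : ℝ} (hN : 0 ≤ N) : Tendsto (ll N) atTop atTop := by
  have hloglog : Tendsto (fun ρ : ℝ => Real.log (Real.log (Real.exp 1 + ρ))) atTop atTop := by
    apply Real.tendsto_log_atTop.comp
    apply Real.tendsto_log_atTop.comp
    exact tendsto_atTop_add_const_left _ _ tendsto_id
  apply tendsto_atTop_mono' _ _ hloglog
  filter_upwards [eventually_gt_atTop 0] with ρ hρ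
  have hd : ∀ σ ∈ uIcc 0 ρ, HasDerivAt (fun ρ : ℝ => Real.log (Real.log (Real.exp 1 + ρ)))
      (1 / ((Real.exp 1 + σ) * Real.log (Real.exp 1 + σ))) σ := by
    intro σ hσ
    rw [uIcc_of_le hρ.le] at hσ
    have hl := log_e_add hσ.1
    have h4 : HasDerivAt (fun σ : ℝ => Real.log (Real.exp 1 + σ)) (1 / (Real.exp 1 + σ)) σ := by
      have := ((hasDerivAt_id σ).const_add (Real.exp 1)).log (by
        simp only [id]; have := hσ.1; positivity)
      simpa using this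
    have := h4.log (by positivity)
    refine this.congr_deriv ?_
    have h5 : 0 < Real.exp 1 + σ := by have := hσ.1; positivity
    field_simp
  have hcont : ContinuousOn (fun σ : ℝ => 1 / ((Real.exp 1 + σ) * Real.log (Real.exp 1 + σ)))
      (uIcc 0 ρ) := by
    rw [uIcc_of_le hρ.le]
    apply ContinuousOn.div continuousOn_const
    · apply ContinuousOn.mul (by fun_prop)
      apply ContinuousOn.log (by fun_prop)
      intro x hx
      have : (0:ℝ) ≤ x := hx.1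
      positivity
    · intro x hx
      have hx' : (0:ℝ) ≤ x := hx.1
      have := log_e_add hx'
      positivity
  have hint : IntervalIntegrable (fun σ : ℝ => 1 / ((Real.exp 1 + σ) *
      Real.log (Real.exp 1 + σ))) volume 0 ρ := hcont.intervalIntegrable
  have h1 := intervalIntegral.integral_eq_sub_of_hasDerivAt hd hint
  have h2 : Real.log (Real.log (Real.exp 1 + 0)) = 0 := by simp
  rw [h2, sub_zero] at h1
  rw [← h1]
  apply intervalIntegral.integral_mono_on hρ.le hint (ll1_intervalIntegrable N hρ.le)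
  intro σ hσ
  unfold ll1
  have hl := log_e_add hσ.1
  have h3 : 1 ≤ Real.exp (N / (1 + √σ)) := Real.one_le_exp (by positivity)
  have h4 : (1 + σ) * Real.log (Real.exp 1 + σ) ≤ (Real.exp 1 + σ) * Real.log (Real.exp 1 + σ) := by
    apply mul_le_mul_of_nonneg_right _ (by linarith)
    have := Real.one_le_exp (zero_le_one (α := ℝ))
    linarith
  have h5 : 0 < (1 + σ) * Real.log (Real.exp 1 + σ) := by
    have := hσ.1
    positivity
  exact div_le_div₀ (Real.exp_pos _).le h3 h5 h4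

lemma ll_nonneg (N : ℝ) {ρ : ℝ} (hρ : 0 ≤ ρ) : 0 ≤ ll N ρ := by
  apply intervalIntegral.integral_nonneg hρ
  intro σ hσ
  exact (ll1_pos hσ.1).le

/-- the inequality for the doubly logarithmic barrier -/
lemma ll_ineq {U r₁ : ℝ} (hU : 0 ≤ U) (hr₁ : 1 < r₁) {N : ℝ}
    (hN1 : U * (1 + r₁) ^ 2 ≤ N) (hN2 : 4 * (2 + 2 * Real.exp 1 / Real.log r₁) ≤ N)
    {ρ q : ℝ} (hρ : 0 < ρ) (hq : -(U * √ρ) ≤ q)
    (hq2 : r₁ ≤ √ρ → -2 - 1 / Real.log (√ρ) ≤ q) :
    4 * ρ * (ll1 N ρ * llr N ρ) ≤ 2 * q * ll1 N ρ := by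
  have hpos := ll1_pos (N := N) hρ.le
  have hs : 0 < √ρ := Real.sqrt_pos.2 hρ
  have hss : √ρ ^ 2 = ρ := Real.sq_sqrt hρ.le
  have hlr : 0 < Real.log r₁ := Real.log_pos hr₁
  have hN0 : 0 ≤ N := le_trans (by positivity) hN2
  suffices hmain : 2 * ρ * llr N ρ ≤ q by nlinarith
  have hA : 2 * ρ * (N / (2 * √ρ * (1 + √ρ) ^ 2)) = N * √ρ / (1 + √ρ) ^ 2 := by
    have : ρ = √ρ * √ρ := (Real.mul_self_sqrt hρ.le).symm
    field_simp
    rw [Real.sq_sqrt hρ.le]
    ring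
  have hll := log_e_add hρ.le
  have hB : 0 ≤ 2 * ρ * (1 / (1 + ρ)) := by positivity
  have hC : 0 ≤ 2 * ρ * (1 / ((Real.exp 1 + ρ) * Real.log (Real.exp 1 + ρ))) := by positivity
  have hexp : 2 * ρ * llr N ρ = -(N * √ρ / (1 + √ρ) ^ 2) - 2 * ρ * (1 / (1 + ρ))
      - 2 * ρ * (1 / ((Real.exp 1 + ρ) * Real.log (Real.exp 1 + ρ))) := by
    rw [← hA]; unfold llr; ring
  rw [hexp]
  by_cases hcase : r₁ ≤ √ρ
  · have hq' := hq2 hcase
    -- large distances
    have hs1 : 1 < √ρ := hr₁.trans_le hcase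
    have hlogs : Real.log r₁ ≤ Real.log (√ρ) := Real.log_le_log (by linarith) hcase
    have hlogρ : Real.log ρ = 2 * Real.log (√ρ) := by
      rw [Real.log_sqrt hρ.le]; ring
    set ℓ := Real.log (√ρ) with hℓ
    have hℓpos : 0 < ℓ := hlr.trans_le hlogs
    set Λ := Real.log (Real.exp 1 + ρ) with hΛ
    set E := Real.exp 1 with hE
    have hEpos : 0 < E := Real.exp_pos 1
    -- Λ ≤ log ρ + E / ρ
    have hΛle : Λ ≤ 2 * ℓ + E / ρ := by
      rw [← hlogρ]
      have h1 : Real.log (E + ρ) = Real.log ρ + Real.log (1 + E / ρ) := by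
        rw [← Real.log_mul hρ.ne' (by positivity)]
        congr 1
        field_simp
        ring
      rw [hΛ, h1]
      have h2 : Real.log (1 + E / ρ) ≤ E / ρ := by
        have := Real.log_le_sub_one_of_pos (show 0 < 1 + E / ρ by positivity)
        linarith
      linarith
    -- compare 1/ℓ with 2ρ/((E+ρ)Λ)
    have hcmp : 1 / ℓ - 2 * ρ * (1 / ((E + ρ) * Λ)) ≤ 2 * E / (ρ * ℓ) := by
      have h1 : 1 / ℓ - 2 * ρ * (1 / ((E + ρ) * Λ)) = ((E + ρ) * Λ - 2 * ρ * ℓ) / (ℓ * ((E + ρ) * Λ)) := by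
        field_simp
      rw [h1, div_le_div_iff₀ (by positivity) (by positivity)]
      have h2 : ρ * Λ ≤ 2 * ρ * ℓ + E := by
        have := mul_le_mul_of_nonneg_left hΛle hρ.le
        calc ρ * Λ ≤ ρ * (2 * ℓ + E / ρ) := this
          _ = 2 * ρ * ℓ + E := by field_simp
      have h3 : (E + ρ) * Λ - 2 * ρ * ℓ ≤ 2 * E * Λ := by nlinarith
      calc ((E + ρ) * Λ - 2 * ρ * ℓ) * (ρ * ℓ) ≤ (2 * E * Λ) * (ρ * ℓ) :=
            mul_le_mul_of_nonneg_right h3 (by positivity)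
        _ ≤ (2 * E * Λ) * ((E + ρ) * ℓ) := by
            apply mul_le_mul_of_nonneg_left _ (by positivity)
            apply mul_le_mul_of_nonneg_right _ hℓpos.le
            linarith
        _ = 2 * E * (ℓ * ((E + ρ) * Λ)) := by ring
    have hN3 : (2 + 2 * E / ℓ) / ρ ≤ N * √ρ / (1 + √ρ) ^ 2 := by
      have h1 : 2 + 2 * E / ℓ ≤ 2 + 2 * E / Real.log r₁ := by
        have : 2 * E / ℓ ≤ 2 * E / Real.log r₁ :=
          div_le_div_of_nonneg_left (by positivity) hlr hlogs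
        linarith
      have h2 : 4 * (2 + 2 * E / ℓ) ≤ N := by linarith
      have h3 : (1 + √ρ) ^ 2 ≤ 4 * ρ := by nlinarith
      rw [div_le_div_iff₀ hρ (by positivity)]
      have h4 : 0 ≤ 2 + 2 * E / ℓ := by positivity
      calc (2 + 2 * E / ℓ) * (1 + √ρ) ^ 2 ≤ (2 + 2 * E / ℓ) * (4 * ρ) :=
            mul_le_mul_of_nonneg_left h3 h4
        _ = (4 * (2 + 2 * E / ℓ)) * ρ := by ring
        _ ≤ N * ρ := mul_le_mul_of_nonneg_right h2 hρ.le
        _ ≤ N * √ρ * ρ := by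
            apply mul_le_mul_of_nonneg_right _ hρ.le
            exact le_mul_of_one_le_right hN0 hs1.le
    have hfrac : 2 * ρ * (1 / (1 + ρ)) = 2 - 2 / (1 + ρ) := by
      field_simp
      ring
    have hfr2 : 2 / (1 + ρ) ≤ 2 / ρ := div_le_div_of_nonneg_left (by norm_num) hρ (by linarith)
    have hsplit : (2 + 2 * E / ℓ) / ρ = 2 / ρ + 2 * E / (ρ * ℓ) := by
      field_simp
    rw [hfrac]
    rw [hsplit] at hN3
    linarith
  · push Not at hcase
    have h1 : U * √ρ ≤ N * √ρ / (1 + √ρ) ^ 2 := by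
      rw [le_div_iff₀ (by positivity)]
      have h2 : (1 + √ρ) ^ 2 ≤ (1 + r₁) ^ 2 := by
        apply pow_le_pow_left₀ (by positivity)
        linarith
      calc U * √ρ * (1 + √ρ) ^ 2 ≤ U * √ρ * (1 + r₁) ^ 2 :=
            mul_le_mul_of_nonneg_left h2 (by positivity)
        _ = (U * (1 + r₁) ^ 2) * √ρ := by ring
        _ ≤ N * √ρ := mul_le_mul_of_nonneg_right hN1 hs.le
    linarith

/-- the explicit helper barrier `(2/k)(1 - exp(-k √ρ))` -/
noncomputable def hb (k ρ : ℝ) : ℝ := 2 / k * (1 - Real.exp (-(k * √ρ)))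
noncomputable def hb1 (k ρ : ℝ) : ℝ := Real.exp (-(k * √ρ)) / √ρ
noncomputable def hb2 (k ρ : ℝ) : ℝ :=
  -(Real.exp (-(k * √ρ)) * (1 / (2 * ρ * √ρ) + k / (2 * ρ)))

lemma hasDerivAt_hb {k ρ : ℝ} (hk : 0 < k) (hρ : 0 < ρ) : HasDerivAt (hb k) (hb1 k ρ) ρ := by
  have hs : 0 < √ρ := Real.sqrt_pos.2 hρ
  have h1 : HasDerivAt (fun ρ : ℝ => Real.exp (-(k * √ρ)))
      (Real.exp (-(k * √ρ)) * (-(k * (1 / (2 * √ρ))))) ρ :=
    ((Real.hasDerivAt_sqrt hρ.ne').const_mul k).neg.exp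
  have h2 := ((h1.const_sub 1).const_mul (2 / k))
  refine h2.congr_deriv ?_
  unfold hb1
  field_simp

lemma hasDerivAt_hb1 {k ρ : ℝ} (hρ : 0 < ρ) : HasDerivAt (hb1 k) (hb2 k ρ) ρ := by
  have hs : 0 < √ρ := Real.sqrt_pos.2 hρ
  have h1 : HasDerivAt (fun ρ : ℝ => Real.exp (-(k * √ρ)))
      (Real.exp (-(k * √ρ)) * (-(k * (1 / (2 * √ρ))))) ρ :=
    ((Real.hasDerivAt_sqrt hρ.ne').const_mul k).neg.exp
  have h2 := h1.div (Real.hasDerivAt_sqrt hρ.ne') hs.ne'
  refine h2.congr_deriv ?_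
  unfold hb2
  have e1 : ∀ S : ℝ, 0 < S → ∀ E : ℝ, (E * (-(k * (1 / (2 * S)))) * S - E * (1 / (2 * S))) / S ^ 2
      = -(E * (1 / (2 * S ^ 2 * S) + k / (2 * S ^ 2))) := by
    intro S hS E
    field_simp
    ring
  rw [e1 _ hs, Real.sq_sqrt hρ.le]

lemma hb_nonneg {k ρ : ℝ} (hk : 0 < k) : 0 ≤ hb k ρ := by
  unfold hb
  have : Real.exp (-(k * √ρ)) ≤ 1 := Real.exp_le_one_iff.2 (by
    have := Real.sqrt_nonneg ρ
    nlinarith)
  have h2 : 0 ≤ 2 / k := by positivity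
  nlinarith

/-- the inequality for the helper barrier -/
lemma hb_ineq {U ρ q R : ℝ} (hU : 0 ≤ U) (hρ : 0 < ρ) (hR : √ρ ≤ R)
    (hq : -(U * √ρ) ≤ q) :
    4 * ρ * hb2 (U + 1) ρ + 2 * Real.exp (-((U + 1) * R)) ≤ 2 * q * hb1 (U + 1) ρ := by
  have hs : 0 < √ρ := Real.sqrt_pos.2 hρ
  unfold hb1 hb2
  set X := Real.exp (-((U + 1) * √ρ)) with hX
  have hXpos : 0 < X := Real.exp_pos _
  have hXR : Real.exp (-((U + 1) * R)) ≤ X := by
    apply Real.exp_le_exp.2
    have := mul_le_mul_of_nonneg_left hR (by linarith : 0 ≤ U + 1)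
    linarith
  have h1 : 4 * ρ * -(X * (1 / (2 * ρ * √ρ) + (U + 1) / (2 * ρ))) = -(2 * X / √ρ) - 2 * (U + 1) * X := by
    field_simp
    ring
  rw [h1]
  have h2 : -(2 * U * X) ≤ 2 * q * (X / √ρ) := by
    rw [show 2 * q * (X / √ρ) = (2 * q * X) / √ρ by ring, le_div_iff₀ hs]
    nlinarith
  have h3 : 0 ≤ 2 * X / √ρ := by positivity
  nlinarith

end Pool.Agent.H16
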