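import Mathlib
import Pool.Agent.H16.Radial

/-!
The equation satisfied by `r u_r`, and a barrier theorem for the circulation on all of space.
-/

open Set Filter Topology
open scoped Laplacian Gradient ContDiff RealInnerProductSpace

namespace Pool.Agent.H16

/-- line derivatives of `r u_r` -/
noncomputable def flD (v : E3 → E3) (x : E3) (i : Fin 3) (s : ℝ) : ℝ :=
  (e i 0 * v (x + s • e i) 0 + (x + s • e i) 0 * fderiv ℝ v (x + s • e i) (e i) 0) +
  (e i 1 * v (x + s • e i) 1 + (x + s • e i) 1 * fderiv ℝ v (x + s • e i) (e i) 1)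

noncomputable def flH (v : E3 → E3) (x : E3) (i : Fin 3) : ℝ :=
  (2 * e i 0 * fderiv ℝ v x (e i) 0 + x 0 * fderiv ℝ (fderiv ℝ v) x (e i) (e i) 0) +
  (2 * e i 1 * fderiv ℝ v x (e i) 1 + x 1 * fderiv ℝ (fderiv ℝ v) x (e i) (e i) 1)

section sol

variable {T : ℝ} {u : ℝ → E3 → E3} {p : ℝ → E3 → ℝ}

lemma IsAxisymNS.flux_jet (h : IsAxisymNS T u p) {t : ℝ} (ht : t ∈ Ioo 0 T) (x : E3) :
    LineJet (fun t x => radFlux (u t) x) t x
      (x 0 * deriv (fun s => u s x) t 0 + x 1 * deriv (fun s => u s x) t 1)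
      (flD (u t) x) (flH (u t) x) where
  time := by
    have h1 := h.hasDerivAt_time ht x
    exact ((hasDerivAt_coord h1 0).const_mul (x 0)).add ((hasDerivAt_coord h1 1).const_mul (x 1))
  line := by
    intro i
    refine Eventually.of_forall fun s => ?_
    have hv := h.slice (⟨ht.1.le, ht.2⟩ : t ∈ Ico 0 T)
    have h1 := hasDerivAt_field_line hv x i s
    have h2 := hasDerivAt_line x i s
    exact ((hasDerivAt_coord h2 0).mul (hasDerivAt_coord h1 0)).add
      ((hasDerivAt_coord h2 1).mul (hasDerivAt_coord h1 1))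
  line2 := by
    intro i
    have hv := h.slice (⟨ht.1.le, ht.2⟩ : t ∈ Ico 0 T)
    have h1 := hasDerivAt_field_line hv x i 0
    have h2 := hasDerivAt_line x i 0
    have h3 := hasDerivAt_field_line2 hv x i 0
    have := (((hasDerivAt_coord h1 0).const_mul (e i 0)).add
      ((hasDerivAt_coord h2 0).mul (hasDerivAt_coord h3 0))).add
      (((hasDerivAt_coord h1 1).const_mul (e i 1)).add
      ((hasDerivAt_coord h2 1).mul (hasDerivAt_coord h3 1)))
    refine this.congr_deriv ?_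
    simp only [zero_smul, add_zero, flH]
    ring

/-- the equation of `r u_r`, away from the axis -/
lemma IsAxisymNS.flux_equation (h : IsAxisymNS T u p) {t : ℝ} (ht : t ∈ Ioo 0 T) (x : E3)
    (hx : 0 < x 0 ^ 2 + x 1 ^ 2) :
    (x 0 * deriv (fun s => u s x) t 0 + x 1 * deriv (fun s => u s x) t 1)
      + ∑ i, u t x i * flD (u t) x i 0
    = ∑ i, flH (u t) x i
      - 2 / (x 0 ^ 2 + x 1 ^ 2) * (x 0 * flD (u t) x 0 0 + x 1 * flD (u t) x 1 0)
      + (u t x 0 ^ 2 + u t x 1 ^ 2 - radFlux (∇ (p t)) x) := by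
  have ht' : t ∈ Ico 0 T := ⟨ht.1.le, ht.2⟩
  obtain ⟨hA, hB⟩ := h.axis_identities ht' x
  have hns := h.navier_stokes t ht x
  have hns0 := congrArg (fun w : E3 => w 0) hns
  have hns1 := congrArg (fun w : E3 => w 1) hns
  have hconv := fderiv_expand (u t) x (u t x)
  have hconv0 := congrArg (fun w : E3 => w 0) hconv
  have hconv1 := congrArg (fun w : E3 => w 1) hconv
  have hlap := laplacian_eq_sum (u t) x
  have hlap0 := congrArg (fun w : E3 => w 0) hlap
  have hlap1 := congrArg (fun w : E3 => w 1) hlap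
  simp only [Fin.sum_univ_three, PiLp.add_apply, PiLp.sub_apply, PiLp.smul_apply, smul_eq_mul,
    PiLp.zero_apply] at hns0 hns1 hconv0 hconv1 hlap0 hlap1
  have hD : x 0 * flD (u t) x 0 0 + x 1 * flD (u t) x 1 0
      = (x 0 ^ 2 + x 1 ^ 2) * (fderiv ℝ (u t) x (e 0) 0 + fderiv ℝ (u t) x (e 1) 1) := by
    simp only [flD, zero_smul, add_zero, e_apply]
    simp only [Fin.isValue, if_true, Fin.reduceEq, if_false, one_mul, zero_mul, zero_add]
    linear_combination x 1 * hA - x 0 * hB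
  rw [hD]
  have h2 : 2 / (x 0 ^ 2 + x 1 ^ 2) * ((x 0 ^ 2 + x 1 ^ 2) *
      (fderiv ℝ (u t) x (e 0) 0 + fderiv ℝ (u t) x (e 1) 1))
      = 2 * (fderiv ℝ (u t) x (e 0) 0 + fderiv ℝ (u t) x (e 1) 1) := by
    field_simp
  rw [h2]
  simp only [flD, flH, radFlux, zero_smul, add_zero, e_apply, Fin.sum_univ_three]
  simp only [Fin.isValue, if_true, Fin.reduceEq, if_false, one_mul, zero_mul, zero_add,
    mul_one, mul_zero]
  linear_combination x 0 * hns0 + x 1 * hns1 - x 0 * hconv0 - x 1 * hconv1 + x 0 * hlap0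
    + x 1 * hlap1

/-- The barrier theorem for the circulation on all of space. -/
theorem IsAxisymNS.circ_barrier_univ (h : IsAxisymNS T u p) {T' : ℝ} (hT' : T' < T)
    {a a1 ψ ψ' ψ2 : ℝ → ℝ}
    (hac : ContinuousOn a (Icc 0 T')) (ha : ∀ t ∈ Ioc 0 T', HasDerivAt a (a1 t) t)
    (ha0 : ∀ t ∈ Icc 0 T', 0 ≤ a t)
    (hψ : ∀ ρ ∈ Ioi 0, HasDerivAt ψ (ψ' ρ) ρ)
    (hψnear : ∀ ρ ∈ Ioi 0, HasDerivAt ψ' (ψ2 ρ) ρ)
    (hψ0 : ∀ ρ ∈ Ioi 0, 0 ≤ ψ ρ)
    (hinit : ∀ x, 0 < rad x → |circ (u 0) x| ≤ a 0 * ψ (rsq x))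
    (hbar : ∀ t ∈ Ioc 0 T', ∀ x, 0 < rad x → a t * ψ (rsq x) < |circ (u t) x| →
      a t * (4 * rsq x * ψ2 (rsq x)) ≤ a1 t * ψ (rsq x)
        + a t * (2 * radFlux (u t) x * ψ' (rsq x))) :
    ∀ t ∈ Icc 0 T', ∀ x, 0 < rad x → |circ (u t) x| ≤ a t * ψ (rsq x) := by
  obtain ⟨K, hK⟩ := h.bounded T' hT'
  have key : ∀ σ : ℝ, |σ| = 1 → ∀ t ∈ Icc 0 T', ∀ x ∈ (univ : Set E3), 0 < rad x →
      σ * circ (u t) x ≤ a t * ψ (rsq x) := by
    intro σ hσ
    have hle : ∀ t x, σ * circ (u t) x ≤ |circ (u t) x| := by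
      intro t x
      calc σ * circ (u t) x ≤ |σ * circ (u t) x| := le_abs_self _
        _ = |circ (u t) x| := by rw [abs_mul, hσ, one_mul]
    refine comparison h hT' (f := fun t x => σ * circ (u t) x)
      (Φ := fun t x => a t * ψ (rsq x)) (G := univ) (U := univ)
      (K := K) ?_ ?_ isClosed_univ isOpen_univ le_rfl ?_ ?_ ?_ ?_ ?_
    · exact continuousOn_const.mul (h.continuousOn_circ hT')
    · intro t ht x
      calc σ * circ (u t) x ≤ |circ (u t) x| := hle t x
        _ ≤ rad x * ‖u t x‖ := circ_le _ _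
        _ ≤ K * rad x := by
          rw [mul_comm]
          exact mul_le_mul_of_nonneg_right (hK t ht x) (rad_nonneg x)
    · have h1 : ContinuousOn (fun q : ℝ × E3 => a q.1)
          (Icc 0 T' ×ˢ {x | x ∈ (univ : Set E3) ∧ 0 < rad x}) :=
        hac.comp continuousOn_fst (fun q hq => hq.1)
      have h2 : ContinuousOn ψ (Ioi 0) := fun ρ hρ => (hψ ρ hρ).continuousAt.continuousWithinAt
      have h3 : Continuous fun q : ℝ × E3 => rsq q.2 := by unfold rsq; fun_prop
      have h4 : ContinuousOn (fun q : ℝ × E3 => ψ (rsq q.2))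
          (Icc 0 T' ×ˢ {x | x ∈ (univ : Set E3) ∧ 0 < rad x}) := by
        apply h2.comp h3.continuousOn
        rintro ⟨t, x⟩ ⟨_, _, hx2⟩
        exact rsq_pos hx2
      exact h1.mul h4
    · intro t ht x _ hr
      exact mul_nonneg (ha0 t ht) (hψ0 _ (rsq_pos hr))
    · intro x _ hr
      exact (hle 0 x).trans (hinit x hr)
    · intro t _ x _ hxU _
      exact absurd (mem_univ x) hxU
    · intro t ht x _ hr hlt
      have ht' : t ∈ Ioo 0 T := ⟨ht.1, ht.2.trans_lt hT'⟩
      obtain ⟨b, D, H, hj, hin⟩ := h.signed_circ ht' x hr σ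
      have hjr := radial_jet (ha t ht)
        (show ∀ᶠ ρ in 𝓝 (rsq x), HasDerivAt ψ (ψ' ρ) ρ from by
          filter_upwards [Ioi_mem_nhds (rsq_pos hr)] with ρ hρ'
          exact hψ ρ hρ') (hψnear (rsq x) (rsq_pos hr))
      refine ⟨b, D, H, _, _, _, 0, hj, hjr, hin, ?_⟩
      rw [radial_second _ _ _ _ (rsq_pos hr), radial_first]
      have := hbar t ht x hr (hlt.trans_le (hle t x))
      simpa [radFlux] using this
  intro t ht x hr
  rw [abs_le]
  constructor
  · have := key (-1) (by simp) t ht x (mem_univ _) hr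
    linarith
  · have := key 1 (by simp) t ht x (mem_univ _) hr
    linarith

lemma circ_sq_add_flux_sq (v : E3 → E3) (x : E3) :
    circ v x ^ 2 + radFlux v x ^ 2 = rsq x * (v x 0 ^ 2 + v x 1 ^ 2) := by
  unfold circ radFlux rsq
  ring

/-- A one-sided lower bound `r u_r ≥ -(c + n(t) r)` from a one-sided bound on the radial
pressure gradient. -/
theorem IsAxisymNS.flux_barrier (h : IsAxisymNS T u p) {T' : ℝ} (hT' : T' < T)
    {c : ℝ} (hc : 0 ≤ c) {n n1 : ℝ → ℝ}
    (hnc : ContinuousOn n (Icc 0 T')) (hn : ∀ t ∈ Ioc 0 T', HasDerivAt n (n1 t) t)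
    (hn0 : ∀ t ∈ Icc 0 T', 0 ≤ n t)
    (hinit : ∀ x, ‖u 0 x‖ ≤ n 0)
    (hyp : ∀ t ∈ Ioc 0 T', ∀ x, 0 < rad x → radFlux (u t) x < -(c + n t * rad x) →
      radFlux (∇ (p t)) x ≤ (circ (u t) x / rad x) ^ 2 + c ^ 2 / rad x ^ 2
        + n t / rad x + n1 t * rad x) :
    ∀ t ∈ Icc 0 T', ∀ x, 0 < rad x → -(c + n t * rad x) ≤ radFlux (u t) x := by
  obtain ⟨K, hK⟩ := h.bounded T' hT'
  have key : ∀ t ∈ Icc 0 T', ∀ x ∈ (univ : Set E3), 0 < rad x →
      - radFlux (u t) x ≤ 1 * c + n t * √(rsq x) := by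
    refine comparison h hT' (f := fun t x => - radFlux (u t) x)
      (Φ := fun t x => 1 * c + n t * √(rsq x)) (G := univ) (U := univ)
      (K := K) ?_ ?_ isClosed_univ isOpen_univ le_rfl ?_ ?_ ?_ ?_ ?_
    · exact (h.continuousOn_radFlux hT').neg
    · intro t ht x
      calc - radFlux (u t) x ≤ |radFlux (u t) x| := neg_le_abs _
        _ ≤ rad x * ‖u t x‖ := radFlux_le _ _
        _ ≤ K * rad x := by
          rw [mul_comm]
          exact mul_le_mul_of_nonneg_right (hK t ht x) (rad_nonneg x)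
    · have h1 : ContinuousOn (fun q : ℝ × E3 => n q.1)
          (Icc 0 T' ×ˢ {x | x ∈ (univ : Set E3) ∧ 0 < rad x}) :=
        hnc.comp continuousOn_fst (fun q hq => hq.1)
      have h3 : Continuous fun q : ℝ × E3 => √(rsq q.2) := by unfold rsq; fun_prop
      exact continuousOn_const.add (h1.mul h3.continuousOn)
    · intro t ht x _ _
      have := hn0 t ht
      positivity
    · intro x _ hr
      have h1 : - radFlux (u 0) x ≤ rad x * ‖u 0 x‖ := (neg_le_abs _).trans (radFlux_le _ _)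
      have h2 : rad x * ‖u 0 x‖ ≤ n 0 * √(rsq x) := by
        rw [mul_comm]
        exact mul_le_mul_of_nonneg_right (hinit x) (rad_nonneg x)
      linarith
    · intro t _ x _ hxU _
      exact absurd (mem_univ x) hxU
    · intro t ht x _ hr hlt
      have ht' : t ∈ Ioo 0 T := ⟨ht.1, ht.2.trans_lt hT'⟩
      have hρ := rsq_pos hr
      have hj := (h.flux_jet ht' x).neg
      have heq := h.flux_equation ht' x hρ
      have hsqrt : ∀ ρ : ℝ, 0 < ρ → HasDerivAt (fun ρ : ℝ => √ρ) (1 / (2 * √ρ)) ρ := by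
        intro ρ hρ
        have := (hasDerivAt_id ρ).sqrt hρ.ne'
        simpa using this
      have hsqrt2 : ∀ ρ : ℝ, 0 < ρ → HasDerivAt (fun ρ : ℝ => 1 / (2 * √ρ))
          (-(1 / (4 * ρ * √ρ))) ρ := by
        intro ρ hρ
        have hs : 0 < √ρ := Real.sqrt_pos.2 hρ
        have h1 := ((hsqrt ρ hρ).const_mul 2).inv (by positivity)
        have h4 : (fun ρ : ℝ => 1 / (2 * √ρ)) = (fun y => 2 * √y)⁻¹ := by
          ext y; simp
        rw [h4]
        refine h1.congr_deriv ?_
        have hss : √ρ * √ρ = ρ := Real.mul_self_sqrt hρ.le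
        field_simp
        rw [show ρ = √ρ * √ρ from hss.symm]
        norm_num
        ring
      have hjr := radial_jet (x := x) (hn t ht)
        (show ∀ᶠ ρ in 𝓝 (rsq x), HasDerivAt (fun ρ : ℝ => √ρ) (1 / (2 * √ρ)) ρ from by
          filter_upwards [Ioi_mem_nhds hρ] with ρ hρ'
          exact hsqrt ρ hρ') (hsqrt2 (rsq x) hρ)
      have hjc : LineJet (fun _ _ => 1 * c) t x 0 (fun _ _ => 0) (fun _ => 0) :=
        ⟨hasDerivAt_const _ _, fun i => Eventually.of_forall fun s => hasDerivAt_const _ _,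
          fun i => hasDerivAt_const _ _⟩
      have hjΦ := hjc.add hjr
      refine ⟨_, _, _, _, _, _, -(u t x 0 ^ 2 + u t x 1 ^ 2 - radFlux (∇ (p t)) x), hj, hjΦ,
        ?_, ?_⟩
      · simp only [Fin.sum_univ_three] at heq ⊢
        apply le_of_eq
        linear_combination - heq
      · simp only [zero_add]
        have hA := radial_second (n t) (fun ρ : ℝ => 1 / (2 * √ρ))
          (-(1 / (4 * rsq x * √(rsq x)))) x hρ
        beta_reduce at hA
        rw [hA, radial_first]
        have hq : radFlux (u t) x < -(c + n t * rad x) := by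
          have : rad x = √(rsq x) := rfl
          rw [this]; linarith
        have hp := hyp t ht x hr hq
        have hsum := circ_sq_add_flux_sq (u t) x
        have hr2 := rad_sq' x
        have hrs : √(rsq x) = rad x := rfl
        rw [← hr2] at hsum
        rw [hrs, ← hr2]
        have hn0' := hn0 t ⟨ht.1.le, ht.2⟩
        have hq2 : x 0 * u t x 0 + x 1 * u t x 1 = radFlux (u t) x := rfl
        rw [hq2]
        set r := rad x with hrdef
        set q := radFlux (u t) x with hqdef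
        set Γ := circ (u t) x with hΓdef
        set P := radFlux (∇ (p t)) x with hP
        have hW : u t x 0 ^ 2 + u t x 1 ^ 2 = (Γ ^ 2 + q ^ 2) / r ^ 2 := by
          field_simp
          linarith
        rw [hW]
        have hmain : c ^ 2 ≤ q ^ 2 + n t * q * r := by
          have h1 : 0 ≤ -q - c - n t * r := by linarith
          have h3 : 0 ≤ n t * r := mul_nonneg hn0' hr.le
          nlinarith [sq_nonneg (-q - c - n t * r), mul_nonneg h1 hc, mul_nonneg hc h3,
            mul_nonneg h1 h3]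
        have e1 : n t * (4 * r ^ 2 * -(1 / (4 * r ^ 2 * r))) = - (n t / r) := by
          field_simp
        have e2 : n t * (2 * q * (1 / (2 * r))) = n t * q / r := by
          field_simp
        rw [e1, e2]
        have e3 : (Γ / r) ^ 2 = Γ ^ 2 / r ^ 2 := by rw [div_pow]
        rw [e3] at hp
        have e4 : (Γ ^ 2 + q ^ 2) / r ^ 2 = Γ ^ 2 / r ^ 2 + q ^ 2 / r ^ 2 := by ring
        rw [e4]
        have e5 : c ^ 2 / r ^ 2 ≤ q ^ 2 / r ^ 2 + n t * q / r := by
          have : q ^ 2 / r ^ 2 + n t * q / r = (q ^ 2 + n t * q * r) / r ^ 2 := by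
            field_simp
          rw [this]
          exact div_le_div_of_nonneg_right hmain (by positivity)
        linarith
  intro t ht x hr
  have := key t ht x (mem_univ _) hr
  have hrs : √(rsq x) = rad x := rfl
  rw [hrs] at this
  linarith

end sol

end Pool.Agent.H16
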