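import Mathlib
import Pool.Agent.H16.Radial

/-!
The logarithmic barrier `|ln r|^(-α)` with slack.
-/

open Set Filter Topology MeasureTheory

namespace Pool.Agent.H16

/-- `|ln r|` as a function of `ρ = r²` -/
noncomputable def lgm (ρ : ℝ) : ℝ := -(Real.log ρ / 2)

lemma lgm_pos {ρ : ℝ} (h0 : 0 < ρ) (h1 : ρ < 1) : 0 < lgm ρ := by
  unfold lgm
  have := Real.log_neg h0 h1
  linarith

lemma hasDerivAt_lgm {ρ : ℝ} (h0 : 0 < ρ) : HasDerivAt lgm (-(1 / (2 * ρ))) ρ := by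
  unfold lgm
  have := ((Real.hasDerivAt_log h0.ne').div_const 2).neg
  refine this.congr_deriv ?_
  field_simp

noncomputable def lb (α ρ : ℝ) : ℝ := lgm ρ ^ (-α)

noncomputable def lb1 (α ρ : ℝ) : ℝ := α * lgm ρ ^ (-α - 1) * (1 / (2 * ρ))

noncomputable def lb2 (α ρ : ℝ) : ℝ :=
  α * (α + 1) * lgm ρ ^ (-α - 2) * (1 / (2 * ρ)) ^ 2 - α * lgm ρ ^ (-α - 1) * (1 / (2 * ρ ^ 2))

lemma hasDerivAt_lb {α ρ : ℝ} (h0 : 0 < ρ) (h1 : ρ < 1) :
    HasDerivAt (lb α) (lb1 α ρ) ρ := by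
  have := (hasDerivAt_lgm h0).rpow_const (p := -α) (Or.inl (lgm_pos h0 h1).ne')
  refine this.congr_deriv ?_
  unfold lb1
  ring

lemma hasDerivAt_lb1 {α ρ : ℝ} (h0 : 0 < ρ) (h1 : ρ < 1) :
    HasDerivAt (lb1 α) (lb2 α ρ) ρ := by
  have h2 := (hasDerivAt_lgm h0).rpow_const (p := -α - 1) (Or.inl (lgm_pos h0 h1).ne')
  have h3 : HasDerivAt (fun ρ : ℝ => 1 / (2 * ρ)) (-(1 / (2 * ρ ^ 2))) ρ := by
    have := ((hasDerivAt_id ρ).const_mul 2).inv (by simpa using h0.ne')
    simp only [id, mul_one] at this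
    have h4 : (fun ρ : ℝ => 1 / (2 * ρ)) = (fun y => 2 * y)⁻¹ := by
      ext y; simp
    rw [h4]
    refine this.congr_deriv ?_
    field_simp
  have := (h2.const_mul α).mul h3
  refine this.congr_deriv ?_
  unfold lb2
  have : (-α - 1 - 1) = -α - 2 := by ring
  rw [this]
  ring

/-- the barrier inequality with slack `ε` -/
lemma lb_slack {α ρ q ε : ℝ} (hα : 0 < α) (h0 : 0 < ρ) (h1 : ρ < 1)
    (hq : -2 + (1 + α + ε) / lgm ρ ≤ q) :
    4 * ρ * lb2 α ρ + α * ε * (lgm ρ ^ (-α - 2) / ρ) ≤ 2 * q * lb1 α ρ := by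
  have hl := lgm_pos h0 h1
  unfold lb1 lb2
  set l := lgm ρ with hldef
  have e2 : l ^ (-α - 2) = l ^ (-α - 1) / l := by
    rw [← Real.rpow_sub_one hl.ne']; ring_nf
  rw [e2]
  have hP : 0 < l ^ (-α - 1) := Real.rpow_pos_of_pos hl _
  set P := l ^ (-α - 1) with hPdef
  have key : 2 * q * (α * P * (1 / (2 * ρ)))
      - 4 * ρ * (α * (α + 1) * (P / l) * (1 / (2 * ρ)) ^ 2 - α * P * (1 / (2 * ρ ^ 2)))
      - α * ε * (P / l / ρ)
      = α * P / ρ * (q - (-2 + (1 + α + ε) / l)) := by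
    field_simp
    ring
  have hnn : 0 ≤ α * P / ρ * (q - (-2 + (1 + α + ε) / l)) := by
    apply mul_nonneg (by positivity)
    linarith
  linarith

lemma lgm_rsq {x : E3} (hx : rad x < 1) : lgm (rsq x) = |Real.log (rad x)| := by
  rw [log_rad, lgm]
  by_cases h : 0 < rad x
  · have h0 : 0 < rsq x := rsq_pos h
    have h1 : rsq x < 1 := by
      rw [← rad_sq']
      exact pow_lt_one₀ (rad_nonneg x) hx two_ne_zero
    rw [abs_of_neg]
    have := Real.log_neg h0 h1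
    linarith
  · have h1 : rad x = 0 := le_antisymm (not_lt.1 h) (rad_nonneg x)
    have h2 : rsq x = 0 := by rw [← rad_sq', h1]; simp
    rw [h2]; simp

/-- `r |ln r|^α ≤ α^α` on `(0, 1]` -/
lemma mul_log_rpow_le {r α : ℝ} (hr : 0 < r) (hr1 : r ≤ 1) (hα : 0 < α) :
    r * |Real.log r| ^ α ≤ α ^ α := by
  have h2 := Real.abs_log_mul_self_rpow_lt r (1 / α) hr hr1 (by positivity)
  rw [one_div_one_div, abs_mul, abs_of_nonneg (Real.rpow_nonneg hr.le _)] at h2
  have h3 : (|Real.log r| * r ^ (1 / α)) ^ α ≤ α ^ α :=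
    Real.rpow_le_rpow (by positivity) h2.le hα.le
  rw [Real.mul_rpow (abs_nonneg _) (Real.rpow_nonneg hr.le _), ← Real.rpow_mul hr.le,
    one_div_mul_cancel hα.ne', Real.rpow_one] at h3
  linarith

/-- the part of a barrier depending on `z` and `t` -/
lemma zt_jet' (A B S z₁ t : ℝ) (x : E3) :
    LineJet (fun t x => A * (x 2 - z₁) ^ 2 + B * (S - t)) t x (-B)
      (fun i s => A * (2 * ((x + s • e i) 2 - z₁) * e i 2))
      (fun i => A * (2 * e i 2 * e i 2)) where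
  time := by
    have := (((hasDerivAt_id t).const_sub S).const_mul B).const_add (A * (x 2 - z₁) ^ 2)
    refine this.congr_deriv ?_
    simp
  line := by
    intro i
    refine Eventually.of_forall fun s => ?_
    have h1 := (((hasDerivAt_coord (hasDerivAt_line x i s) 2).sub_const z₁).pow 2).const_mul A
    have := h1.add_const (B * (S - t))
    refine this.congr_deriv ?_
    simp
  line2 := by
    intro i
    have h1 := ((((hasDerivAt_coord (hasDerivAt_line x i 0) 2).sub_const z₁).const_mul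
      2).mul_const (e i 2)).const_mul A
    exact h1

end Pool.Agent.H16
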