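import Mathlib

/-!
Primitive of a continuous, nonnegative, integrable function on `[0, T)`, and the power-like
barrier `∫_0^ρ σ^(-c/2) exp(-N √σ) dσ`.
-/

open Set Filter Topology MeasureTheory

namespace Pool.Agent.H16

lemma primitive_facts {T : ℝ} {g : ℝ → ℝ} (hgc : ContinuousOn g (Ico 0 T))
    (hg0 : ∀ t ∈ Ico 0 T, 0 ≤ g t) (hgi : IntegrableOn g (Ico 0 T)) :
    (∀ t ∈ Ico 0 T, 0 ≤ ∫ s in (0:ℝ)..t, g s) ∧
    (∀ t ∈ Ico 0 T, ∫ s in (0:ℝ)..t, g s ≤ ∫ s in Ico 0 T, g s) ∧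
    (∀ t ∈ Ioo 0 T, HasDerivAt (fun t => ∫ s in (0:ℝ)..t, g s) (g t) t) ∧
    (∀ T' < T, ContinuousOn (fun t => ∫ s in (0:ℝ)..t, g s) (Icc 0 T')) := by
  refine ⟨?_, ?_, ?_, ?_⟩
  · intro t ht
    apply intervalIntegral.integral_nonneg ht.1
    intro s hs
    exact hg0 s ⟨hs.1, hs.2.trans_lt ht.2⟩
  · intro t ht
    rw [intervalIntegral.integral_of_le ht.1, integral_Ico_eq_integral_Ioo]
    have h2 : IntegrableOn g (Ioo 0 T) := hgi.mono_set Ioo_subset_Ico_self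
    apply setIntegral_mono_set h2
    · rw [Filter.EventuallyLE, ae_restrict_iff' measurableSet_Ioo]
      exact Eventually.of_forall fun s hs => hg0 s ⟨hs.1.le, hs.2⟩
    · exact (show Ioc 0 t ⊆ Ioo 0 T from fun s hs => ⟨hs.1, hs.2.trans_lt ht.2⟩).eventuallyLE
  · intro t ht
    have hcont : ContinuousAt g t := (hgc.mono Ioo_subset_Ico_self).continuousAt
      (isOpen_Ioo.mem_nhds ht)
    apply intervalIntegral.integral_hasDerivAt_right
    · apply ContinuousOn.intervalIntegrable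
      rw [uIcc_of_le ht.1.le]
      exact hgc.mono (fun s hs => ⟨hs.1, hs.2.trans_lt ht.2⟩)
    · exact (hgc.mono Ioo_subset_Ico_self).stronglyMeasurableAtFilter isOpen_Ioo t ht
    · exact hcont
  · intro T' hT'
    by_cases hT0' : 0 ≤ T'
    · have h1 : IntegrableOn g (uIcc 0 T') := by
        rw [uIcc_of_le hT0']
        exact hgi.mono_set (fun s hs => ⟨hs.1, hs.2.trans_lt hT'⟩)
      have := intervalIntegral.continuousOn_primitive_interval h1
      rwa [uIcc_of_le hT0'] at this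
    · rw [Icc_eq_empty hT0']
      exact continuousOn_empty _

/-- integrand of the power-like barrier -/
noncomputable def pw1 (c N σ : ℝ) : ℝ := σ ^ (-(c / 2)) * Real.exp (-(N * √σ))

noncomputable def pw (c N ρ : ℝ) : ℝ := ∫ σ in (0:ℝ)..ρ, pw1 c N σ

noncomputable def pw2 (c N σ : ℝ) : ℝ :=
  pw1 c N σ * (-(c / (2 * σ)) - N / (2 * √σ))

lemma pw1_pos {c N σ : ℝ} (hσ : 0 < σ) : 0 < pw1 c N σ := by
  unfold pw1
  have := Real.rpow_pos_of_pos hσ (-(c / 2))
  positivity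

lemma pw1_continuousOn (c N : ℝ) : ContinuousOn (pw1 c N) (Ioi 0) := by
  unfold pw1
  apply ContinuousOn.mul
  · apply ContinuousOn.rpow_const continuousOn_id
    intro x hx
    exact Or.inl (ne_of_gt hx)
  · exact (by fun_prop : Continuous fun σ : ℝ => Real.exp (-(N * √σ))).continuousOn

lemma pw1_intervalIntegrable {c : ℝ} (hc : c < 2) (N ρ : ℝ) :
    IntervalIntegrable (pw1 c N) volume 0 ρ := by
  unfold pw1
  apply IntervalIntegrable.mul_continuousOn
  · apply intervalIntegral.intervalIntegrable_rpow'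
    linarith
  · exact (by fun_prop : Continuous fun σ : ℝ => Real.exp (-(N * √σ))).continuousOn

lemma hasDerivAt_pw {c : ℝ} (hc : c < 2) (N : ℝ) {ρ : ℝ} (hρ : 0 < ρ) :
    HasDerivAt (pw c N) (pw1 c N ρ) ρ := by
  unfold pw
  apply intervalIntegral.integral_hasDerivAt_right (pw1_intervalIntegrable hc N ρ)
  · exact (pw1_continuousOn c N).stronglyMeasurableAtFilter isOpen_Ioi ρ hρ
  · exact (pw1_continuousOn c N).continuousAt (Ioi_mem_nhds hρ)

lemma hasDerivAt_pw1 (c N : ℝ) {ρ : ℝ} (hρ : 0 < ρ) :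
    HasDerivAt (pw1 c N) (pw2 c N ρ) ρ := by
  have h1 : HasDerivAt (fun σ : ℝ => σ ^ (-(c / 2))) (-(c / 2) * ρ ^ (-(c / 2) - 1)) ρ :=
    Real.hasDerivAt_rpow_const (Or.inl hρ.ne')
  have h2 : HasDerivAt (fun σ : ℝ => Real.exp (-(N * √σ)))
      (Real.exp (-(N * √ρ)) * (-(N * (1 / (2 * √ρ))))) ρ := by
    have := ((Real.hasDerivAt_sqrt hρ.ne').const_mul N).neg.exp
    exact this
  have := h1.mul h2
  refine this.congr_deriv ?_
  unfold pw2 pw1
  rw [Real.rpow_sub_one hρ.ne']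
  ring

lemma pw_lower {c N ρ : ℝ} (hc : c < 2) (hN : 0 ≤ N) (hρ : 0 < ρ) (hρ1 : ρ ≤ 1) :
    Real.exp (-N) * ρ ^ (1 - c / 2) / (1 - c / 2) ≤ pw c N ρ := by
  have hc' : 0 < 1 - c / 2 := by linarith
  have h1 : Real.exp (-N) * ρ ^ (1 - c / 2) / (1 - c / 2)
      = ∫ σ in (0:ℝ)..ρ, σ ^ (-(c / 2)) * Real.exp (-N) := by
    rw [intervalIntegral.integral_mul_const, integral_rpow (Or.inl (by linarith))]
    have : -(c / 2) + 1 = 1 - c / 2 := by ring
    rw [this, Real.zero_rpow hc'.ne']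
    ring
  rw [h1]
  apply intervalIntegral.integral_mono_on hρ.le
  · apply IntervalIntegrable.mul_continuousOn _ continuousOn_const
    apply intervalIntegral.intervalIntegrable_rpow'
    linarith
  · exact pw1_intervalIntegrable hc N ρ
  · intro σ hσ
    unfold pw1
    apply mul_le_mul_of_nonneg_left _ (Real.rpow_nonneg hσ.1 _)
    apply Real.exp_le_exp.2
    have : √σ ≤ 1 := by
      rw [show (1:ℝ) = √1 from Real.sqrt_one.symm]
      exact Real.sqrt_le_sqrt (hσ.2.trans hρ1)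
    nlinarith

lemma pw_upper {c N ρ : ℝ} (hc : c < 2) (hN : 0 ≤ N) (hρ : 0 < ρ) :
    pw c N ρ ≤ ρ ^ (1 - c / 2) / (1 - c / 2) := by
  have hc' : 0 < 1 - c / 2 := by linarith
  have h1 : ρ ^ (1 - c / 2) / (1 - c / 2)
      = ∫ σ in (0:ℝ)..ρ, σ ^ (-(c / 2)) := by
    rw [integral_rpow (Or.inl (by linarith))]
    have : -(c / 2) + 1 = 1 - c / 2 := by ring
    rw [this, Real.zero_rpow hc'.ne']
    ring
  rw [h1]
  apply intervalIntegral.integral_mono_on hρ.le
  · exact pw1_intervalIntegrable hc N ρ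
  · apply intervalIntegral.intervalIntegrable_rpow'
    linarith
  · intro σ hσ
    unfold pw1
    apply mul_le_of_le_one_right (Real.rpow_nonneg hσ.1 _)
    apply Real.exp_le_one_iff.2
    have : 0 ≤ √σ := Real.sqrt_nonneg _
    nlinarith

lemma pw_nonneg {c N ρ : ℝ} (hρ : 0 < ρ) : 0 ≤ pw c N ρ := by
  apply intervalIntegral.integral_nonneg hρ.le
  intro σ hσ
  unfold pw1
  exact mul_nonneg (Real.rpow_nonneg hσ.1 _) (Real.exp_pos _).le

/-- the barrier inequality for `pw` -/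
lemma pw_ineq {c N ρ q : ℝ} (hρ : 0 < ρ) (hq : -(c + N * √ρ) ≤ q) :
    4 * ρ * pw2 c N ρ ≤ 2 * q * pw1 c N ρ := by
  unfold pw2
  have hP := pw1_pos (c := c) (N := N) hρ
  set P := pw1 c N ρ
  have hs : 0 < √ρ := Real.sqrt_pos.2 hρ
  have hss : √ρ * √ρ = ρ := Real.mul_self_sqrt hρ.le
  have e : 4 * ρ * (P * (-(c / (2 * ρ)) - N / (2 * √ρ))) = P * (-(2 * c) - 2 * N * √ρ) := by
    have h1 : 4 * ρ * (c / (2 * ρ)) = 2 * c := by field_simp; ring
    have h3 : ρ / √ρ = √ρ := Real.div_sqrt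
    have h2 : 4 * ρ * (N / (2 * √ρ)) = 2 * N * √ρ := by
      rw [show 4 * ρ * (N / (2 * √ρ)) = 2 * N * (ρ / √ρ) by field_simp; ring, h3]
    linear_combination (-P) * h1 - P * h2
  rw [e]
  nlinarith

end Pool.Agent.H16
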